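import Pool.Agent.Lib.MP_67573e_al.Median

set_option autoImplicit false

namespace Pool.Agent.Lib.MP_67573e_al

/-- permutations of a set act on the free group over it -/
def hol (Y : Type) : Equiv.Perm Y →* Equiv.Perm (FreeGroup Y) where
  toFun σ := (FreeGroup.freeGroupCongr σ).toEquiv
  map_one' := by
    ext w
    simp [FreeGroup.freeGroupCongr]
  map_mul' σ τ := by
    ext w
    simp [FreeGroup.freeGroupCongr, FreeGroup.map.comp]

theorem hol_apply {Y : Type} (σ : Equiv.Perm Y) (w : FreeGroup Y) :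
    hol Y σ w = FreeGroup.map σ w := rfl

theorem hol_conj {Y : Type} (σ : Equiv.Perm Y) (y : Y) :
    hol Y σ * Equiv.mulLeft (FreeGroup.of y) * (hol Y σ)⁻¹ =
      Equiv.mulLeft (FreeGroup.of (σ y)) := by
  rw [mul_inv_eq_iff_eq_mul]
  ext w
  simp [hol_apply]

theorem hol_comm {Y : Type} (σ : Equiv.Perm Y) (y : Y) (h : σ y = y) :
    Commute (hol Y σ) (Equiv.mulLeft (FreeGroup.of y)) := by
  have := hol_conj σ y
  rw [h, mul_inv_eq_iff_eq_mul] at this
  exact this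

theorem inj_abstract {G Γ M Y : Type} [Group G] [Group Γ] [Group M] (ι : G →* Γ) (p : Γ)
    (hgen : ∀ H : Subgroup Γ, (∀ g, ι g ∈ H) → p ∈ H → ∀ γ, γ ∈ H)
    (Φ : Γ →* M) (π : M →* G) (hπ1 : ∀ g, π (Φ (ι g)) = g) (hπ2 : π (Φ p) = 1)
    (y0 : Y) (ν : G →* Equiv.Perm Y) (hst : ∀ g, ν g y0 = y0 → Commute p (ι g))
    (Θ : M →* Equiv.Perm (FreeGroup Y)) (hΘ1 : ∀ g, Θ (Φ (ι g)) = hol Y (ν g))
    (hΘ2 : Θ (Φ p) = Equiv.mulLeft (FreeGroup.of y0)) : Function.Injective Φ := by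
  classical
  let T : Subgroup Γ := Subgroup.closure (Set.range fun g => ι g * p * (ι g)⁻¹)
  let Ψ : FreeGroup Y →* Γ := FreeGroup.lift fun y =>
    if h : ∃ g, ν g y0 = y then ι h.choose * p * (ι h.choose)⁻¹ else 1
  have hΨ : ∀ g, Ψ (FreeGroup.of (ν g y0)) = ι g * p * (ι g)⁻¹ := by
    intro g
    have h : ∃ g', ν g' y0 = ν g y0 := ⟨g, rfl⟩
    simp only [Ψ, FreeGroup.lift_apply_of, dif_pos h]
    have h1 := h.choose_spec
    generalize h.choose = g' at h1
    have h2 : ν (g⁻¹ * g') y0 = y0 := by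
      rw [map_mul, Equiv.Perm.mul_apply, h1, map_inv]
      simp
    have h3 := (hst _ h2).eq
    rw [map_mul, map_inv] at h3
    calc ι g' * p * (ι g')⁻¹ = ι g * ((ι g)⁻¹ * ι g' * p) * (ι g')⁻¹ := by group
      _ = ι g * p * (ι g)⁻¹ := by rw [← h3]; group
  have hA : ∀ γ ∈ T, ∃ w, Ψ w = γ ∧ Θ (Φ γ) = Equiv.mulLeft w := by
    intro γ hγ
    induction hγ using Subgroup.closure_induction with
    | mem x hx =>
      obtain ⟨g, rfl⟩ := hx
      refine ⟨_, hΨ g, ?_⟩
      simp only [map_mul, map_inv, hΘ1, hΘ2]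
      exact hol_conj _ _
    | one => exact ⟨1, map_one _, by simp⟩
    | mul x y _ _ hx hy =>
      obtain ⟨u, rfl, hu⟩ := hx
      obtain ⟨v, rfl, hv⟩ := hy
      exact ⟨u * v, map_mul _ _ _, by rw [map_mul, map_mul, hu, hv, Equiv.mulLeft_mul]⟩
    | inv x _ hx =>
      obtain ⟨u, rfl, hu⟩ := hx
      exact ⟨u⁻¹, map_inv _ _, by rw [map_inv, map_inv, hu, Equiv.inv_mulLeft]⟩
  have hN : ∀ g, ∀ γ ∈ T, ι g * γ * (ι g)⁻¹ ∈ T := by
    intro g γ hγ
    induction hγ using Subgroup.closure_induction with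
    | mem x hx =>
      obtain ⟨g', rfl⟩ := hx
      apply Subgroup.subset_closure
      exact ⟨g * g', by simp only [map_mul]; group⟩
    | one => simp
    | mul x y _ _ hx hy =>
      have := T.mul_mem hx hy
      have e : ι g * x * (ι g)⁻¹ * (ι g * y * (ι g)⁻¹) = ι g * (x * y) * (ι g)⁻¹ := by group
      rwa [e] at this
    | inv x _ hx =>
      have := T.inv_mem hx
      have e : (ι g * x * (ι g)⁻¹)⁻¹ = ι g * x⁻¹ * (ι g)⁻¹ := by group
      rwa [e] at this
  let H : Subgroup Γ :=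
    { carrier := {γ | γ * (ι (π (Φ γ)))⁻¹ ∈ T}
      one_mem' := by simp
      mul_mem' := by
        intro a b ha hb
        have := T.mul_mem ha (hN (π (Φ a)) _ hb)
        have e : a * (ι (π (Φ a)))⁻¹ * (ι (π (Φ a)) * (b * (ι (π (Φ b)))⁻¹) * (ι (π (Φ a)))⁻¹) =
            a * b * (ι (π (Φ (a * b))))⁻¹ := by simp only [map_mul]; group
        rwa [e] at this
      inv_mem' := by
        intro a ha
        have := hN (π (Φ a))⁻¹ _ (T.inv_mem ha)
        have e : ι (π (Φ a))⁻¹ * (a * (ι (π (Φ a)))⁻¹)⁻¹ * (ι (π (Φ a))⁻¹)⁻¹ =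
            a⁻¹ * (ι (π (Φ a⁻¹)))⁻¹ := by simp only [map_inv]; group
        rwa [e] at this }
  have hB : ∀ γ, γ ∈ H := by
    apply hgen
    · intro g
      show ι g * (ι (π (Φ (ι g))))⁻¹ ∈ T
      rw [hπ1]
      simp
    · show p * (ι (π (Φ p)))⁻¹ ∈ T
      rw [hπ2]
      apply Subgroup.subset_closure
      exact ⟨1, by simp⟩
  rw [injective_iff_map_eq_one]
  intro γ hγ
  have h1 : γ * (ι (π (Φ γ)))⁻¹ ∈ T := hB γ
  rw [hγ] at h1
  simp only [map_one, inv_one, mul_one] at h1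
  obtain ⟨w, rfl, hw⟩ := hA γ h1
  rw [hγ, map_one] at hw
  have : w = 1 := by
    have := congrArg (fun σ : Equiv.Perm (FreeGroup Y) => σ 1) hw
    simpa using this.symm
  rw [this, map_one]

theorem area_abstract {F Q : Type} [Group F] [Group Q] (Θ : F →* Q)
    (Λ : Multiplicative ℝ →* Q) (hc : ∀ g t, Commute (Θ g) (Λ t)) (R : Set F) (c : ℝ)
    (hR : ∀ r ∈ R, ∃ t : ℝ, |t| ≤ c ∧ Θ r = Λ (Multiplicative.ofAdd t))
    (L : List (F × F)) (hL : ∀ p ∈ L, p.2 ∈ R ∨ p.2⁻¹ ∈ R) :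
    ∃ t : ℝ, |t| ≤ c * L.length ∧
      Θ (L.map (fun p => p.1 * p.2 * p.1⁻¹)).prod = Λ (Multiplicative.ofAdd t) := by
  induction L with
  | nil => exact ⟨0, by simp, by simp⟩
  | cons a L ih =>
    obtain ⟨t, ht, e⟩ := ih (fun p hp => hL p (List.mem_cons_of_mem _ hp))
    have : ∃ t : ℝ, |t| ≤ c ∧ Θ a.2 = Λ (Multiplicative.ofAdd t) := by
      rcases hL a List.mem_cons_self with h | h
      · exact hR _ h
      · obtain ⟨t, ht, e⟩ := hR _ h
        refine ⟨-t, by rwa [abs_neg], ?_⟩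
        rw [ofAdd_neg, map_inv, ← e, map_inv, inv_inv]
    obtain ⟨u, hu, e'⟩ := this
    refine ⟨u + t, ?_, ?_⟩
    · have := abs_add_le u t
      simp only [List.length_cons]
      push_cast
      linarith
    · simp only [List.map_cons, List.prod_cons, map_mul, map_inv, e, e', ofAdd_add]
      rw [(hc a.1 _).eq]
      group

theorem norm_map_le {X Z : Type} [DecidableEq X] [DecidableEq Z] (f : X → Z) (w : FreeGroup X) :
    (FreeGroup.map f w).norm ≤ w.norm := by
  conv_lhs => rw [← FreeGroup.mk_toWord (x := w), FreeGroup.map.mk]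
  refine FreeGroup.norm_mk_le.trans ?_
  simp [FreeGroup.norm]

theorem package {A X : Type} [Finite A] [Finite X] [DecidableEq X] (P : CubePres A)
    (R0 : Set (FreeGroup X)) (hR : R0.Finite) (φ0 : FreeGroup X →* P.Grp)
    (hker : φ0.ker = Subgroup.normalClosure R0)
    (harea : ∀ C : ℕ, ∃ w ∈ φ0.ker, ∀ L : List (FreeGroup X × FreeGroup X),
      (∀ p ∈ L, p.2 ∈ R0 ∨ p.2⁻¹ ∈ R0) → (L.map (fun p => p.1 * p.2 * p.1⁻¹)).prod = w →
        (C + 1) ^ (w.norm + 1) < L.length) :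
  ∃ (G : Type) (_ : Group G) (V : Type) (_ : MulAction G V) (Γ : SimpleGraph V),
    Nonempty V ∧ Γ.Connected ∧
    (∀ v : V, (Γ.neighborSet v).Finite) ∧
    (∀ x y z : V, ∃! m : V,
        Γ.dist x m + Γ.dist m y = Γ.dist x y ∧
        Γ.dist y m + Γ.dist m z = Γ.dist y z ∧
        Γ.dist x m + Γ.dist m z = Γ.dist x z) ∧
    (∀ (g : G) (u v : V), Γ.Adj u v → Γ.Adj (g • u) (g • v)) ∧
    (∀ v : V, (MulAction.stabilizer G v : Set G).Finite) ∧
    (∃ S : Finset V, ∀ v : V, ∃ g : G, ∃ s ∈ S, g • s = v) ∧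
    ∃ (H : Subgroup G) (n : ℕ) (R : Finset (FreeGroup (Fin n)))
      (φ : FreeGroup (Fin n) →* G),
      φ.range = H ∧
      φ.ker = Subgroup.normalClosure (R : Set (FreeGroup (Fin n))) ∧
      ∀ C : ℕ, ∃ w ∈ φ.ker,
        ¬ ∃ L : List (FreeGroup (Fin n) × FreeGroup (Fin n)),
          L.length ≤ C ^ (w.toWord.length + 1) ∧
          (∀ p ∈ L, p.2 ∈ R ∨ p.2⁻¹ ∈ R) ∧
          (L.map (fun p => p.1 * p.2 * p.1⁻¹)).prod = w := by
  obtain ⟨n, ⟨e⟩⟩ := Finite.exists_equiv_fin X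
  let E : FreeGroup X ≃* FreeGroup (Fin n) := FreeGroup.freeGroupCongr e
  refine ⟨P.Grp, inferInstance, P.Grp, inferInstance, P.cayley, ⟨1⟩, P.cayley_connected,
    P.cayley_finite, P.cayley_median, ?_, ?_, ⟨{1}, fun v => ⟨v, 1, by simp, by simp⟩⟩,
    _, n, (hR.image E).toFinset, φ0.comp E.symm.toMonoidHom, rfl, ?_, ?_⟩
  · rintro g u v ⟨x, rfl⟩
    exact ⟨x, by simp [mul_assoc]⟩
  · intro v
    apply (Set.finite_singleton 1).subset
    intro g hg
    simpa using hg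
  · rw [Set.Finite.coe_toFinset, ← MonoidHom.comap_ker, hker]
    have := Subgroup.map_normalClosure R0 E.toMonoidHom E.surjective
    rw [show (E '' R0) = (E.toMonoidHom '' R0) from rfl, ← this]
    ext w
    simp only [Subgroup.mem_comap, Subgroup.mem_map]
    constructor
    · intro h
      exact ⟨_, h, by simp⟩
    · rintro ⟨v, hv, rfl⟩
      simpa using hv
  · intro C
    obtain ⟨w, hw, h⟩ := harea C
    refine ⟨E w, by simpa using hw, ?_⟩
    rintro ⟨L, h1, h2, h3⟩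
    have h4 := h (L.map (fun p => (E.symm p.1, E.symm p.2))) ?_ ?_
    · rw [List.length_map] at h4
      have h5 : (E w).toWord.length ≤ w.norm := norm_map_le e w
      have h6 : C ^ ((E w).toWord.length + 1) ≤ (C + 1) ^ (w.norm + 1) :=
        (Nat.pow_le_pow_left (Nat.le_succ C) _).trans
          (Nat.pow_le_pow_right (Nat.succ_pos C) (by omega))
      omega
    · intro p hp
      obtain ⟨q, hq, rfl⟩ := List.mem_map.1 hp
      rcases h2 q hq with h | h
      · rw [Set.Finite.mem_toFinset] at h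
        obtain ⟨r, hr, e'⟩ := h
        left
        simpa [← e'] using hr
      · rw [Set.Finite.mem_toFinset] at h
        obtain ⟨r, hr, e'⟩ := h
        right
        show (E.symm q.2)⁻¹ ∈ R0
        rw [← map_inv, ← e']
        simpa using hr
    · apply E.injective
      rw [← h3, map_list_prod, List.map_map, List.map_map]
      congr 1
      apply List.map_congr_left
      intro p _
      simp

end Pool.Agent.Lib.MP_67573e_al
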