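import Pool.Agent.Lib.MP_67573e_al.Tower

set_option autoImplicit false

namespace Pool.Agent.Lib.MP_67573e_al

open CubePres LData

/-- letters of the first layer inside the second -/
def SC : E2 → Prop := fun x => ∃ a, x = .inl a

theorem hSC : L2.layer.Closed SC := L2.closed_old

/-- add a letter commuting with the first layer -/
def PL : CubePres (E2 ⊕ Bool) := L2.layer.glue SC hSC circ

/-- product with a second copy of the base group -/
def PM : CubePres ((E2 ⊕ Bool) ⊕ E2) := PL.glue (fun _ => True) PL.closed_top L2.layer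

/-- letters of the first copy -/
def SG : (E2 ⊕ Bool) ⊕ E2 → Prop := fun x => ∃ a, (∃ a', True ∧ a = .inl a') ∧ x = .inl a

theorem hSG : PM.Closed SG :=
  closed_inl PL _ PL.closed_top L2.layer (closed_inl L2.layer SC hSC circ L2.layer.closed_top)

/-- the ambient cube complex -/
def PA : CubePres (((E2 ⊕ Bool) ⊕ E2) ⊕ Bool) := PM.glue SG hSG circ

/-- inclusions -/
def iL : G →* PL.Grp := ginl L2.layer SC hSC circ

/-- the twisting letter -/
def zL : PL.Grp := ginr L2.layer SC hSC circ (circ.of true)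

theorem io_of (x : E1) : io (L1.layer.of x) = L2.layer.of (.inl x) := L2.incl_of x

theorem s_eq : s = io (L1.layer.of (.inl true)) := congrArg io (L1.incl_of true)

theorem zL_comm (x : E1) : Commute zL (iL (io (L1.layer.of x))) := by
  rw [io_of]
  exact (gcomm L2.layer SC hSC circ ⟨x, rfl⟩ _).symm

/-- the twisted copy -/
def tauL : G →* PL.Grp := twist iL zL (by rw [s_eq]; exact zL_comm _) (fun _ => zL_comm _)

/-- inclusions -/
def iM : PL.Grp →* PM.Grp := ginl PL _ PL.closed_top L2.layer

/-- inclusions -/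
def jM : G →* PM.Grp := ginr PL _ PL.closed_top L2.layer

theorem commM (l : PL.Grp) (g : G) : Commute (iM l) (jM g) := by
  have := PL.generated_by ((Subgroup.centralizer {jM g}).comap iM)
    (fun x => by
      rw [Subgroup.mem_comap, Subgroup.mem_centralizer_singleton_iff]
      exact gcomm PL _ PL.closed_top L2.layer trivial g) l
  rw [Subgroup.mem_comap, Subgroup.mem_centralizer_singleton_iff] at this
  exact this

/-- the diagonal embedding -/
def PhiG : G →* PM.Grp := MonoidHom.mk' (fun g => iM (tauL g) * jM (r g)) (fun g h => by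
  simp only [map_mul]
  calc iM (tauL g) * iM (tauL h) * (jM (r g) * jM (r h))
      = iM (tauL g) * (iM (tauL h) * jM (r g)) * jM (r h) := by group
    _ = _ := by rw [(commM _ _).eq]; group)

theorem PhiG_apply (g : G) : PhiG g = iM (tauL g) * jM (r g) := rfl

/-- inclusions -/
def iA : PM.Grp →* PA.Grp := ginl PM SG hSG circ

/-- the last letter -/
def pA : PA.Grp := ginr PM SG hSG circ (circ.of true)

theorem iM_iL_of (x : E2) : iM (iL (L2.layer.of x)) = PM.of (.inl (.inl x)) := by
  have h1 : iL (L2.layer.of x) = PL.of (.inl x) := ginl_of L2.layer SC hSC circ x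
  rw [h1]
  exact ginl_of PL _ PL.closed_top L2.layer _

theorem commA (x : E2) : Commute pA (iA (iM (iL (L2.layer.of x)))) := by
  rw [iM_iL_of]
  exact (gcomm PM SG hSG circ ⟨.inl x, ⟨x, trivial, rfl⟩, rfl⟩ _).symm

/-- generators of the subgroup -/
abbrev X : Type := E2 ⊕ Unit

/-- commutator relators -/
def crel (x : NA U2) : FreeGroup X :=
  FreeGroup.of (.inr ()) * FreeGroup.of (.inl (.inr (.inl (x, true)))) *
    (FreeGroup.of (.inr ()))⁻¹ * (FreeGroup.of (.inl (.inr (.inl (x, true)))))⁻¹

/-- relators of the subgroup -/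
def R0 : Set (FreeGroup X) := (FreeGroup.map Sum.inl '' L2.layer.rels) ∪ Set.range crel

theorem rels_finite {A : Type} [Finite A] (P : CubePres A) : P.rels.Finite := by
  apply ((Set.finite_range (fun x : A => FreeGroup.of x * FreeGroup.of (P.inv x))).union
    (Set.finite_range (fun x : A × A × A × A => FreeGroup.of x.1 * FreeGroup.of x.2.2.1 *
      (FreeGroup.of x.2.1 * FreeGroup.of x.2.2.2)⁻¹))).subset
  rintro _ (⟨x, rfl⟩ | ⟨x, y, y', x', _, rfl⟩)
  · exact Or.inl ⟨x, rfl⟩
  · exact Or.inr ⟨(x, y, y', x'), rfl⟩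

theorem R0_finite : R0.Finite :=
  ((rels_finite _).image _).union (Set.finite_range _)

/-- extension of a homomorphism of the base group to the free group -/
def ext {Q : Type} [Group Q] (F : G →* Q) (p : Q) : FreeGroup X →* Q :=
  FreeGroup.lift (Sum.elim (fun x => F (L2.layer.of x)) (fun _ => p))

theorem ext_map {Q : Type} [Group Q] (F : G →* Q) (p : Q) (w : FreeGroup E2) :
    ext F p (FreeGroup.map Sum.inl w) = F (PresentedGroup.mk _ w) := by
  have : (ext F p).comp (FreeGroup.map Sum.inl) = F.comp (PresentedGroup.mk _) := by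
    ext x
    simp [ext]
    rfl
  exact DFunLike.congr_fun this w

theorem ext_crel {Q : Type} [Group Q] (F : G →* Q) (p : Q) (x : NA U2) :
    ext F p (crel x) = p * F (a x) * p⁻¹ * (F (a x))⁻¹ := by
  simp [ext, crel]
  rfl

/-- the finitely presented group -/
abbrev Gam : Type := PresentedGroup R0

/-- inclusion of the base group -/
def iG : G →* Gam := PresentedGroup.toGroup (f := fun x => PresentedGroup.of (.inl x)) (by
  intro w hw
  have : FreeGroup.lift (fun x => (PresentedGroup.of (.inl x) : Gam)) =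
      (PresentedGroup.mk R0).comp (FreeGroup.map Sum.inl) := by
    ext x
    simp
    rfl
  rw [this]
  exact PresentedGroup.one_of_mem (Or.inl ⟨w, hw, rfl⟩))

theorem iG_of (x : E2) : iG (L2.layer.of x) = PresentedGroup.of (.inl x) :=
  PresentedGroup.toGroup.of _

/-- the stable letter -/
def pG : Gam := PresentedGroup.of (.inr ())

theorem pG_comm {n : G} (hn : n ∈ N) : Commute pG (iG n) := by
  have : N ≤ (Subgroup.centralizer {pG}).comap iG := by
    rw [N, Subgroup.closure_le]
    rintro _ ⟨x, rfl⟩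
    show iG (a x) ∈ Subgroup.centralizer {pG}
    rw [Subgroup.mem_centralizer_singleton_iff]
    have h : PresentedGroup.mk R0 (crel x) = 1 := PresentedGroup.one_of_mem (Or.inr ⟨x, rfl⟩)
    have e : iG (a x) = PresentedGroup.of (.inl (.inr (.inl (x, true)))) := iG_of _
    rw [crel, map_mul, map_mul, map_mul, map_inv, map_inv, mul_inv_eq_one,
      mul_inv_eq_iff_eq_mul] at h
    rw [e]
    exact h.symm
  have h := this hn
  rw [Subgroup.mem_comap, Subgroup.mem_centralizer_singleton_iff] at h
  exact h.symm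

theorem PhiG_a (x : NA U2) : PhiG (a x) = iM (iL (a x)) := by
  rw [PhiG_apply, r_a, map_one, mul_one, tauL, twist_a]

/-- the embedding -/
def Phi : Gam →* PA.Grp :=
  PresentedGroup.toGroup (f := Sum.elim (fun x => (iA.comp PhiG) (L2.layer.of x)) (fun _ => pA))
    (by
      rintro _ (⟨w, hw, rfl⟩ | ⟨x, rfl⟩)
      · refine (ext_map (iA.comp PhiG) pA w).trans ?_
        rw [PresentedGroup.one_of_mem hw, map_one]
      · refine (ext_crel (iA.comp PhiG) pA x).trans ?_
        rw [MonoidHom.comp_apply, PhiG_a]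
        have h : Commute pA (iA (iM (iL (a x)))) := commA _
        rw [h.eq]
        group)

theorem Phi_iG (g : G) : Phi (iG g) = iA (PhiG g) := by
  have : Phi.comp iG = iA.comp PhiG := L2.layer.hom_ext (fun x => by
    rw [MonoidHom.comp_apply, iG_of]
    exact PresentedGroup.toGroup.of _)
  exact DFunLike.congr_fun this g

theorem Phi_pG : Phi pG = pA := PresentedGroup.toGroup.of _

/-- retractions -/
def piL : PL.Grp →* G := glift L2.layer SC hSC circ (MonoidHom.id G) 1 (fun _ _ _ => by simp)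

/-- retractions -/
def piM : PM.Grp →* G := glift PL _ PL.closed_top L2.layer piL 1 (fun _ _ _ => by simp)

/-- retractions -/
def piA : PA.Grp →* G := glift PM SG hSG circ piM 1 (fun _ _ _ => by simp)

theorem piL_iL (g : G) : piL (iL g) = g := glift_inl _ _ _ _ _ _ _ g

theorem piL_zL : piL zL = 1 := glift_inr _ _ _ _ _ _ _ _

theorem piL_tau (g : G) : piL (tauL g) = g := by
  have : piL.comp tauL = MonoidHom.id G := by
    apply G_ext
    · rw [MonoidHom.comp_apply, tauL, twist_s, map_mul, piL_iL, piL_zL, mul_one]; rfl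
    · intro y
      rw [MonoidHom.comp_apply, tauL, twist_b, piL_iL]; rfl
    · intro y
      rw [MonoidHom.comp_apply, tauL, twist_a, piL_iL]; rfl
  exact DFunLike.congr_fun this g

theorem piA_Phi (g : G) : piA (Phi (iG g)) = g := by
  rw [Phi_iG]
  have h1 : piA (iA (PhiG g)) = piM (PhiG g) := glift_inl _ _ _ _ _ _ _ _
  have h2 : piM (iM (tauL g)) = piL (tauL g) := glift_inl _ _ _ _ _ _ _ _
  have h3 : piM (jM (r g)) = 1 := glift_inr _ _ _ _ _ _ _ _
  rw [h1, PhiG_apply, map_mul, h2, h3, piL_tau, mul_one]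

/-- the line through the base coset -/
def O : Set (G ⧸ As) := {y | ∃ n : ℤ, y = ((s ^ n : G) : G ⧸ As)}

theorem O_smul (m : ℤ) {y : G ⧸ As} (h : y ∈ O) : s ^ m • y ∈ O := by
  obtain ⟨n, rfl⟩ := h
  exact ⟨m + n, by rw [zpow_add]; rfl⟩

theorem O_s (y : G ⧸ As) : s • y ∈ O ↔ y ∈ O := by
  constructor
  · intro h
    have := O_smul (-1) h
    simpa using this
  · intro h
    simpa using O_smul 1 h

theorem O_s' (y : G ⧸ As) : s⁻¹ • y ∈ O ↔ y ∈ O := by
  rw [← O_s, smul_inv_smul]

theorem O_K {k : G} (hk : k ∈ K) {y : G ⧸ As} (h : y ∈ O) : k • y = y := by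
  obtain ⟨n, rfl⟩ := h
  show ((k * s ^ n : G) : G ⧸ As) = _
  symm
  rw [QuotientGroup.eq, ← mul_assoc]
  exact K_le_As (conj_zpow hk n)

open Classical in
/-- shift along the line -/
noncomputable def zeta : Equiv.Perm (G ⧸ As) where
  toFun y := if y ∈ O then s • y else y
  invFun y := if y ∈ O then s⁻¹ • y else y
  left_inv y := by
    by_cases h : y ∈ O
    · simp [h, O_s]
    · simp [h]
  right_inv y := by
    by_cases h : y ∈ O
    · simp [h, O_s']
    · simp [h]

theorem zeta_pos {y : G ⧸ As} (h : y ∈ O) : zeta y = s • y := by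
  simp [zeta, h]

theorem zeta_neg {y : G ⧸ As} (h : y ∉ O) : zeta y = y := by
  simp [zeta, h]

/-- natural action -/
def nat : G →* Equiv.Perm (G ⧸ As) := MulAction.toPermHom G (G ⧸ As)

theorem nat_apply (g : G) (y : G ⧸ As) : nat g y = g • y := rfl

theorem zeta_s : Commute zeta (nat s) := by
  ext y
  simp only [Equiv.Perm.mul_apply, nat_apply]
  by_cases h : y ∈ O
  · rw [zeta_pos h, zeta_pos ((O_s y).2 h)]
  · rw [zeta_neg h, zeta_neg (fun h' => h ((O_s y).1 h'))]

theorem zeta_b (x : NA U1) : Commute zeta (nat (b x)) := by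
  ext y
  simp only [Equiv.Perm.mul_apply, nat_apply]
  by_cases h : y ∈ O
  · rw [zeta_pos h, O_K (b_mem x) h, zeta_pos h, O_K (b_mem x) ((O_s y).2 h)]
  · rw [zeta_neg h, zeta_neg]
    intro h'
    have := O_K (K.inv_mem (b_mem x)) h'
    rw [inv_smul_smul] at this
    exact h (this ▸ h')

/-- the action of the untwisted copy -/
noncomputable def mu : G →* Equiv.Perm (G ⧸ As) :=
  twist nat zeta⁻¹ zeta_s.inv_left (fun x => (zeta_b x).inv_left)

theorem mu_s : mu s = nat s * zeta⁻¹ := twist_s _ _ _ _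

theorem mu_b (x : NA U1) : mu (b x) = nat (b x) := twist_b _ _ _ _ x

theorem mu_a (x : NA U2) : mu (a x) = nat (a x) := twist_a _ _ _ _ x

theorem zeta_mu (c : L1.layer.Grp) : Commute zeta (mu (io c)) := by
  apply comm_io
  · rw [mu_s]
    exact zeta_s.mul_right (Commute.refl zeta).inv_right
  · intro y
    rw [mu_b]
    exact zeta_b y

theorem nat_fix {g : G} : nat g ((1 : G) : G ⧸ As) = ((1 : G) : G ⧸ As) ↔ g ∈ As := by
  show ((g * 1 : G) : G ⧸ As) = _ ↔ _
  rw [eq_comm, QuotientGroup.eq]
  simp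

theorem mu_fix (g : G) : mu g ((1 : G) : G ⧸ As) = ((1 : G) : G ⧸ As) := by
  refine G_gen ((MulAction.stabilizer (Equiv.Perm (G ⧸ As)) ((1 : G) : G ⧸ As)).comap mu)
    ?_ ?_ ?_ g
  · show mu s _ = _
    have h1 : ((1 : G) : G ⧸ As) ∈ O := ⟨0, by simp⟩
    have h2 : zeta⁻¹ ((1 : G) : G ⧸ As) = s⁻¹ • ((1 : G) : G ⧸ As) := by
      rw [Equiv.Perm.inv_eq_iff_eq, zeta_pos ((O_s' _).2 h1), smul_inv_smul]
    rw [mu_s, Equiv.Perm.mul_apply, h2, nat_apply, smul_inv_smul]
  · intro y
    show mu (b y) _ = _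
    rw [mu_b]
    exact nat_fix.2 (K_le_As (b_mem y))
  · intro y
    show mu (a y) _ = _
    rw [mu_a]
    exact nat_fix.2 (N_le_As (a_mem y))

/-- action of the first amalgam -/
noncomputable def nuL : PL.Grp →* Equiv.Perm (G ⧸ As) :=
  glift L2.layer SC hSC circ mu (circLift zeta) (by
    rintro _ ⟨x, rfl⟩ y
    have h := (zeta_mu (L1.layer.of x)).symm
    rw [io_of] at h
    cases y
    · rw [circLift_false]; exact h.inv_right
    · rw [circLift_true]; exact h)

theorem nuL_iL (g : G) : nuL (iL g) = mu g := glift_inl _ _ _ _ _ _ _ g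

theorem nuL_zL : nuL zL = zeta := (glift_inr _ _ _ _ _ _ _ _).trans (circLift_true _)

theorem nuL_tau (g : G) : nuL (tauL g) = nat g := by
  have : nuL.comp tauL = nat := by
    apply G_ext
    · rw [MonoidHom.comp_apply, tauL, twist_s, map_mul, nuL_iL, nuL_zL, mu_s]; group
    · intro y
      rw [MonoidHom.comp_apply, tauL, twist_b, nuL_iL, mu_b]
    · intro y
      rw [MonoidHom.comp_apply, tauL, twist_a, nuL_iL, mu_a]
  exact DFunLike.congr_fun this g

/-- acting on the first factor -/
def extL (Y Z : Type) : Equiv.Perm Y →* Equiv.Perm (Y × Z) where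
  toFun σ := Equiv.prodCongr σ (Equiv.refl Z)
  map_one' := by ext <;> simp
  map_mul' σ τ := by ext <;> simp

/-- acting on the second factor -/
def extR (Y Z : Type) : Equiv.Perm Z →* Equiv.Perm (Y × Z) where
  toFun σ := Equiv.prodCongr (Equiv.refl Y) σ
  map_one' := by ext <;> simp
  map_mul' σ τ := by ext <;> simp

/-- the set of cosets -/
abbrev Y : Type := (G ⧸ As) × G

/-- action of the product -/
noncomputable def nuM : PM.Grp →* Equiv.Perm Y :=
  glift PL _ PL.closed_top L2.layer ((extL _ _).comp nuL)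
    ((extR _ _).comp (MulAction.toPermHom G G)) (fun _ _ _ => rfl)

theorem nuM_iM (l : PL.Grp) : nuM (iM l) = extL _ _ (nuL l) := glift_inl _ _ _ _ _ _ _ l

theorem nuM_jM (g : G) : nuM (jM g) = extR _ _ (MulAction.toPermHom G G g) :=
  glift_inr _ _ _ _ _ _ _ g

/-- base point -/
def y0 : Y := (((1 : G) : G ⧸ As), 1)

theorem nuM_stab {g : G} (h : nuM (PhiG g) y0 = y0) : g ∈ N := by
  rw [PhiG_apply, map_mul, nuM_iM, nuM_jM, nuL_tau] at h
  have h1 : nat g ((1 : G) : G ⧸ As) = ((1 : G) : G ⧸ As) := congrArg Prod.fst h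
  have h2 : r g * 1 = 1 := congrArg Prod.snd h
  exact mem_N (nat_fix.1 h1) (by simpa using h2)

/-- action of the ambient group on a free group -/
noncomputable def Theta : PA.Grp →* Equiv.Perm (FreeGroup Y) :=
  glift PM SG hSG circ ((hol Y).comp nuM) (circLift (Equiv.mulLeft (FreeGroup.of y0))) (by
    rintro _ ⟨_, ⟨x, -, rfl⟩, rfl⟩ y
    have h : Commute (hol Y (nuM (PM.of (.inl (.inl x))))) (Equiv.mulLeft (FreeGroup.of y0)) := by
      apply hol_comm
      rw [← iM_iL_of, nuM_iM, nuL_iL]
      exact Prod.ext (mu_fix _) rfl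
    cases y
    · rw [circLift_false]; exact h.inv_right
    · rw [circLift_true]; exact h)

theorem Phi_injective : Function.Injective Phi := by
  refine inj_abstract iG pG ?_ Phi piA piA_Phi ?_ y0 (nuM.comp PhiG)
    (fun g hg => pG_comm (nuM_stab hg)) Theta ?_ ?_
  · intro H h1 h2
    apply PresentedGroup.generated_by
    rintro (x | ⟨⟩)
    · rw [← iG_of]; exact h1 _
    · exact h2
  · rw [Phi_pG]
    exact glift_inr _ _ _ _ _ _ _ _
  · intro g
    rw [Phi_iG]
    exact glift_inl _ _ _ _ _ _ _ _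
  · rw [Phi_pG]
    exact (glift_inr _ _ _ _ _ _ _ _).trans (circLift_true _)

end Pool.Agent.Lib.MP_67573e_al
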