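import Pool.Agent.Lib.MP_67573e_al.Ambient

set_option autoImplicit false

namespace Pool.Agent.Lib.MP_67573e_al

open CubePres LData Multiplicative

/-- the golden ratio -/
noncomputable def gr : ℝ := Real.goldenRatio

theorem gr_pos : 0 < gr := Real.goldenRatio_pos

theorem gr_one : 1 < gr := Real.one_lt_goldenRatio

theorem gr_two : gr < 2 := Real.goldenRatio_lt_two

theorem gr_sq : gr ^ 2 = gr + 1 := Real.goldenRatio_sq

/-- the space acted on -/
abbrev Om : Type := (ℤ → ℝ) × ℝ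

/-- exponents -/
def ee (n : ℤ) (m : ℤ × ℤ) : ℤ := Int.fib (n - 1) * m.1 + Int.fib n * m.2

theorem fib_succ (n : ℤ) : Int.fib (n + 1) = Int.fib (n - 1) + Int.fib n := by
  have := Int.fib_add_two (n - 1)
  rw [show n - 1 + 2 = n + 1 by ring, show n - 1 + 1 = n by ring] at this
  exact this

theorem ee_pos (n : ℤ) (m : ℤ × ℤ) : ee (n + 1) m = ee n (fibs .pos m) := by
  simp only [ee, fibs, fib_succ, add_sub_cancel_right]
  ring

theorem ee_neg (n : ℤ) (m : ℤ × ℤ) : ee (n - 1) m = ee n (fibs .neg m) := by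
  have := fib_succ (n - 1)
  rw [sub_add_cancel] at this
  simp only [ee, fibs, this]
  ring

theorem ee_add (n : ℤ) (m m' : ℤ × ℤ) : ee n (m + m') = ee n m + ee n m' := by
  simp only [ee, Prod.fst_add, Prod.snd_add]
  ring

theorem ee_zero (m : ℤ × ℤ) : ee 0 m = m.1 := by simp [ee]

/-- translations -/
noncomputable def Tr : Multiplicative ℝ →* Equiv.Perm Om :=
  MonoidHom.toHomPerm
    { toFun := fun t => fun y => (y.1 + Pi.single 0 t.toAdd, y.2)
      map_one' := by funext y; simp; rfl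
      map_mul' := fun t t' => by
        funext y
        show _ = (y.1 + Pi.single 0 t'.toAdd + Pi.single 0 t.toAdd, y.2)
        simp only [toAdd_mul, Pi.single_add]
        congr 1
        ring }

theorem Tr_apply (t : ℝ) (y : Om) : Tr (ofAdd t) y = (y.1 + Pi.single 0 t, y.2) := rfl

/-- diagonal maps -/
noncomputable def Dg : Multiplicative (ℤ × ℤ) →* Equiv.Perm Om :=
  MonoidHom.toHomPerm
    { toFun := fun m => fun y => (fun n => gr ^ (-ee n m.toAdd) * y.1 n, y.2)
      map_one' := by funext y; simp [ee]; rfl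
      map_mul' := fun m m' => by
        funext y
        show _ = (fun n => gr ^ (-ee n m.toAdd) * (gr ^ (-ee n m'.toAdd) * y.1 n), y.2)
        simp only [toAdd_mul, ee_add, neg_add, zpow_add₀ gr_pos.ne', mul_assoc] }

theorem Dg_apply (m : ℤ × ℤ) (y : Om) :
    Dg (ofAdd m) y = (fun n => gr ^ (-ee n m) * y.1 n, y.2) := rfl

/-- the shift -/
def Sh : Equiv.Perm Om where
  toFun y := (fun n => y.1 (n - 1), y.2)
  invFun y := (fun n => y.1 (n + 1), y.2)
  left_inv y := by simp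
  right_inv y := by simp

theorem Sh_apply (y : Om) : Sh y = (fun n => y.1 (n - 1), y.2) := rfl

/-- the stable letter -/
def Pp : Equiv.Perm Om where
  toFun y := (y.1, y.2 + y.1 0)
  invFun y := (y.1, y.2 - y.1 0)
  left_inv y := by simp
  right_inv y := by simp

theorem Pp_apply (y : Om) : Pp y = (y.1, y.2 + y.1 0) := rfl

/-- central translations -/
def Lam : Multiplicative ℝ →* Equiv.Perm Om :=
  MonoidHom.toHomPerm
    { toFun := fun t => fun y => (y.1, y.2 + t.toAdd)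
      map_one' := by funext y; simp; rfl
      map_mul' := fun t t' => by
        funext y
        show _ = (y.1, y.2 + t'.toAdd + t.toAdd)
        simp only [toAdd_mul]
        congr 1
        ring }

theorem Lam_apply (t : ℝ) (y : Om) : Lam (ofAdd t) y = (y.1, y.2 + t) := rfl

theorem Lam_inj {t t' : ℝ} (h : Lam (ofAdd t) = Lam (ofAdd t')) : t = t' := by
  have := congrArg (fun σ : Equiv.Perm Om => (σ (0, 0)).2) h
  simpa [Lam_apply] using this

theorem Sh_Dg (m : ℤ × ℤ) : Sh⁻¹ * Dg (ofAdd m) * Sh = Dg (ofAdd (fibs .pos m)) := by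
  rw [mul_assoc, inv_mul_eq_iff_eq_mul]
  ext1 y
  simp only [Equiv.Perm.mul_apply, Sh_apply, Dg_apply, ← ee_pos, sub_add_cancel]

theorem Sh_Dg' (m : ℤ × ℤ) : Sh * Dg (ofAdd m) * Sh⁻¹ = Dg (ofAdd (fibs .neg m)) := by
  rw [mul_inv_eq_iff_eq_mul]
  ext1 y
  simp only [Equiv.Perm.mul_apply, Sh_apply, Dg_apply, ← ee_neg]

theorem Dg_Tr (m : ℤ × ℤ) (t : ℝ) :
    (Dg (ofAdd m))⁻¹ * Tr (ofAdd t) * Dg (ofAdd m) = Tr (ofAdd (gr ^ m.1 * t)) := by
  rw [mul_assoc, inv_mul_eq_iff_eq_mul]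
  ext1 y
  simp only [Equiv.Perm.mul_apply, Tr_apply, Dg_apply]
  congr 1
  funext n
  by_cases h : n = 0
  · subst h
    simp only [Pi.add_apply, Pi.single_eq_same, ee_zero, zpow_neg]
    have := zpow_ne_zero m.1 gr_pos.ne'
    field_simp
  · simp [Pi.single_eq_of_ne h]

theorem Pp_Tr (t : ℝ) : Pp * Tr (ofAdd t) * Pp⁻¹ * (Tr (ofAdd t))⁻¹ = Lam (ofAdd t) := by
  rw [mul_inv_eq_iff_eq_mul, mul_inv_eq_iff_eq_mul]
  ext1 y
  simp only [Equiv.Perm.mul_apply, Tr_apply, Pp_apply, Lam_apply, Pi.add_apply, Pi.single_eq_same,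
    add_assoc]

/-- real weights -/
noncomputable def om (m : ℤ × ℤ) : ℝ := m.1 + m.2 * gr

/-- translations by weights -/
noncomputable def TrZ : Multiplicative (ℤ × ℤ) →* Equiv.Perm Om :=
  Tr.comp (MonoidHom.mk' (fun m => ofAdd (om m.toAdd)) (fun m m' => by
    rw [← ofAdd_add]
    congr 1
    simp only [om, toAdd_mul, Prod.fst_add, Prod.snd_add]
    push_cast
    ring))

theorem TrZ_apply (m : ℤ × ℤ) : TrZ (ofAdd m) = Tr (ofAdd (om m)) := rfl

theorem om_fibs (k : SignType) (m : ℤ × ℤ) : om (fibs k m) = gr ^ (k : ℤ) * om m := by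
  have h := gr_sq
  have h0 := gr_pos.ne'
  rcases k with _ | _ | _
  · simp [fibs]
  · simp only [fibs, om, SignType.neg_eq_neg_one, SignType.coe_neg_one, zpow_neg, zpow_one]
    push_cast
    field_simp
    linear_combination (m.1 : ℝ) * h
  · simp only [fibs, om, SignType.pos_eq_one, SignType.coe_one, zpow_one]
    push_cast
    linear_combination (-(m.2 : ℝ)) * h

theorem gs_Dg (p : T2) : ∃ m : ℤ × ℤ, m.1 = (kap2 p : ℤ) ∧
    gs (fun y => Dg (ofAdd (wt y))) p = Dg (ofAdd m) := by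
  obtain ⟨y, _ | _⟩ := p
  · refine ⟨-wt y, ?_, by simp [gs]⟩
    rcases y with (_ | _) | y <;> simp [wt, kap2]
  · refine ⟨wt y, ?_, by simp [gs]⟩
    rcases y with (_ | _) | y <;> simp [wt, kap2]

/-- the action of the base group -/
noncomputable def alpha : G →* Equiv.Perm Om :=
  Glift Sh (fun y => Dg (ofAdd (wt y))) (fun x => TrZ (ofAdd (wt x)))
    (fun y => by rw [rowW_wt, Sh_Dg]; rfl)
    (fun y => by rw [rowW_wt, Sh_Dg']; rfl)
    (fun p x => by
      obtain ⟨m, hm, e⟩ := gs_Dg p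
      rw [rowW_wt, e, TrZ_apply, TrZ_apply, Dg_Tr, om_fibs, hm]
      rfl)

theorem alpha_s : alpha s = Sh := Glift_s _ _ _ _ _ _

theorem alpha_b (y : NA U1) : alpha (b y) = Dg (ofAdd (wt y)) := Glift_b _ _ _ _ _ _ y

theorem alpha_a (x : NA U2) : alpha (a x) = Tr (ofAdd (om (wt x))) := Glift_a _ _ _ _ _ _ x

theorem alpha_comm (g : G) (t : Multiplicative ℝ) : Commute (alpha g) (Lam t) := by
  have := G_gen ((Subgroup.centralizer {Lam t}).comap alpha) ?_ ?_ ?_ g
  · rw [Subgroup.mem_comap, Subgroup.mem_centralizer_singleton_iff] at this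
    exact this
  · rw [Subgroup.mem_comap, Subgroup.mem_centralizer_singleton_iff, alpha_s]
    rfl
  · intro y
    rw [Subgroup.mem_comap, Subgroup.mem_centralizer_singleton_iff, alpha_b]
    rfl
  · intro y
    rw [Subgroup.mem_comap, Subgroup.mem_centralizer_singleton_iff, alpha_a]
    rfl

theorem ext_comm (w : FreeGroup X) (t : Multiplicative ℝ) : Commute (ext alpha Pp w) (Lam t) := by
  induction w using FreeGroup.induction_on with
  | C1 => simp
  | of x =>
    rcases x with x | ⟨⟩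
    · simpa [ext] using alpha_comm _ t
    · have : Commute Pp (Lam t) := by
        ext1 y
        show (y.1, y.2 + t.toAdd + y.1 0) = (y.1, y.2 + y.1 0 + t.toAdd)
        congr 1
        ring
      simpa [ext] using this
  | inv_of x h => rw [map_inv]; exact h.inv_left
  | mul x y hx hy => rw [map_mul]; exact hx.mul_left hy

theorem ext_rel : ∀ r ∈ R0, ∃ t : ℝ, |t| ≤ 2 ∧ ext alpha Pp r = Lam (ofAdd t) := by
  rintro _ (⟨w, hw, rfl⟩ | ⟨x, rfl⟩)
  · refine ⟨0, by simp, ?_⟩
    rw [ext_map, PresentedGroup.one_of_mem hw]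
    simp
  · refine ⟨om (wt x), ?_, by rw [ext_crel, alpha_a, Pp_Tr]⟩
    have := gr_pos
    have := gr_two
    rcases x with (_ | _) | x <;> simp [om, wt, abs_of_pos gr_pos]
    linarith

/-- long elements of the first layer -/
def uu (n : ℕ) : G := (s ^ n)⁻¹ * b (.inl false) * s ^ n

/-- very long elements of the second layer -/
def vv (n : ℕ) : G := (uu n)⁻¹ * a (.inl false) * uu n

theorem vv_mem (n : ℕ) : vv n ∈ N := by
  have h : uu n ∈ K := by
    have := conj_zpow (b_mem (.inl false)) n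
    simpa [uu] using this
  exact (Subgroup.mem_normalizer_iff''.1 (K_norm h) _).1 (a_mem _)

theorem alpha_uu (n : ℕ) : alpha (uu n) = Dg (ofAdd (Int.fib (n - 1), Int.fib n)) := by
  induction n with
  | zero => simp [uu, alpha_b, wt]
  | succ n ih =>
    have : uu (n + 1) = s⁻¹ * uu n * s := by simp only [uu, pow_succ]; group
    rw [this, map_mul, map_mul, map_inv, ih, alpha_s, Sh_Dg]
    simp [fibs, fib_succ]

theorem alpha_vv (n : ℕ) : alpha (vv n) = Tr (ofAdd (gr ^ Int.fib (n - 1))) := by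
  rw [vv, map_mul, map_mul, map_inv, alpha_uu, alpha_a, Dg_Tr]
  simp [om, wt]

/-- words -/
def uF (n : ℕ) : FreeGroup X :=
  ((FreeGroup.of (.inl (.inl (.inl true)))) ^ n)⁻¹ *
    FreeGroup.of (.inl (.inl (.inr (.inl (.inl false, true))))) *
    (FreeGroup.of (.inl (.inl (.inl true)))) ^ n

/-- words -/
def vF (n : ℕ) : FreeGroup X :=
  (uF n)⁻¹ * FreeGroup.of (.inl (.inr (.inl (.inl false, true)))) * uF n

/-- words -/
def wF (n : ℕ) : FreeGroup X :=
  FreeGroup.of (.inr ()) * vF n * (FreeGroup.of (.inr ()))⁻¹ * (vF n)⁻¹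

theorem ext_wF {Q : Type} [Group Q] (F : G →* Q) (p : Q) (n : ℕ) :
    ext F p (wF n) = p * F (vv n) * p⁻¹ * (F (vv n))⁻¹ := by
  have e1 : s = L2.layer.of (.inl (.inl true)) := s_eq.trans (io_of _)
  have e2 : b (.inl false) = L2.layer.of (.inl (.inr (.inl (.inl false, true)))) := io_of _
  have e3 : a (.inl false) = L2.layer.of (.inr (.inl (.inl false, true))) := rfl
  simp only [wF, vF, uF, vv, uu, e1, e2, e3, ext, map_mul, map_inv, map_pow,
    FreeGroup.lift_apply_of, Sum.elim_inl, Sum.elim_inr]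

theorem norm_wF [DecidableEq X] (n : ℕ) : (wF n).norm ≤ 8 * n + 8 := by
  have h3 : ∀ x y z : FreeGroup X, (x * y * z).norm ≤ x.norm + y.norm + z.norm := fun x y z =>
    (FreeGroup.norm_mul_le _ _).trans (Nat.add_le_add_right (FreeGroup.norm_mul_le _ _) _)
  have h1 : (uF n).norm ≤ 2 * n + 1 := by
    refine (h3 _ _ _).trans ?_
    simp only [FreeGroup.norm_inv_eq, FreeGroup.norm_of_pow, FreeGroup.norm_of]
    omega
  have h2 : (vF n).norm ≤ 4 * n + 3 := by
    refine (h3 _ _ _).trans ?_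
    simp only [FreeGroup.norm_inv_eq, FreeGroup.norm_of]
    omega
  refine (FreeGroup.norm_mul_le _ _).trans ?_
  have := h3 (FreeGroup.of (.inr ())) (vF n) (FreeGroup.of (.inr ()))⁻¹
  simp only [FreeGroup.norm_inv_eq, FreeGroup.norm_of] at this ⊢
  omega

theorem mk_eq_ext : PresentedGroup.mk R0 = ext iG pG := by
  ext x
  rcases x with x | ⟨⟩
  · simp only [ext, FreeGroup.lift_apply_of, Sum.elim_inl, iG_of]
    rfl
  · simp only [ext, FreeGroup.lift_apply_of, Sum.elim_inr]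
    rfl

theorem growth (C : ℕ) : ∃ n : ℕ, 2 * ((C : ℝ) + 1) ^ (8 * n + 9) < gr ^ Int.fib (n - 1) := by
  obtain ⟨k, hk⟩ : ∃ k, k = 82 * C + 2 := ⟨_, rfl⟩
  refine ⟨2 * k + 2, ?_⟩
  have e : ((2 * k + 2 : ℕ) : ℤ) - 1 = ((2 * k + 1 : ℕ) : ℤ) := by push_cast; ring
  rw [e, Int.fib_natCast, zpow_natCast]
  have h1 : k ≤ Nat.fib (k + 1) := by have := Nat.le_fib_add_one (k + 1); omega
  have h2 : 2 + 2 * C * (8 * (2 * k + 2) + 9) ≤ Nat.fib (2 * k + 1) := by
    rw [Nat.fib_two_mul_add_one]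
    have : k ^ 2 ≤ Nat.fib (k + 1) ^ 2 := Nat.pow_le_pow_left h1 2
    nlinarith [Nat.zero_le (Nat.fib k ^ 2), Nat.zero_le C]
  have h3 : (2 : ℝ) < gr ^ 2 := by rw [gr_sq]; linarith [gr_one]
  have h4 : (C : ℝ) + 1 ≤ (gr ^ 2) ^ C := by
    have : C + 1 ≤ 2 ^ C := Nat.lt_two_pow_self
    calc (C : ℝ) + 1 ≤ 2 ^ C := by exact_mod_cast this
      _ ≤ _ := pow_le_pow_left₀ (by norm_num) h3.le C
  calc 2 * ((C : ℝ) + 1) ^ (8 * (2 * k + 2) + 9)
      < gr ^ 2 * ((C : ℝ) + 1) ^ (8 * (2 * k + 2) + 9) := by gcongr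
    _ ≤ gr ^ 2 * ((gr ^ 2) ^ C) ^ (8 * (2 * k + 2) + 9) := by gcongr
    _ = gr ^ (2 + 2 * C * (8 * (2 * k + 2) + 9)) := by rw [← pow_mul, ← pow_mul, ← pow_add, mul_assoc]
    _ ≤ _ := pow_le_pow_right₀ gr_one.le h2

/-- the homomorphism from the free group -/
def phi0 : FreeGroup X →* PA.Grp := Phi.comp (PresentedGroup.mk R0)

theorem phi0_ker : phi0.ker = Subgroup.normalClosure R0 := by
  ext w
  rw [MonoidHom.mem_ker, phi0, MonoidHom.comp_apply, map_eq_one_iff _ Phi_injective,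
    PresentedGroup.mk_eq_one_iff]

theorem area [DecidableEq X] (C : ℕ) : ∃ w ∈ phi0.ker, ∀ L : List (FreeGroup X × FreeGroup X),
    (∀ p ∈ L, p.2 ∈ R0 ∨ p.2⁻¹ ∈ R0) → (L.map (fun p => p.1 * p.2 * p.1⁻¹)).prod = w →
      (C + 1) ^ (w.norm + 1) < L.length := by
  obtain ⟨n, hn⟩ := growth C
  refine ⟨wF n, ?_, fun L h1 h2 => ?_⟩
  · rw [MonoidHom.mem_ker, phi0, MonoidHom.comp_apply, mk_eq_ext, ext_wF,
      (pG_comm (vv_mem n)).eq]
    simp
  · obtain ⟨t, ht, e⟩ := area_abstract (ext alpha Pp) Lam ext_comm R0 2 ext_rel L h1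
    rw [h2, ext_wF, alpha_vv, Pp_Tr] at e
    rw [← Lam_inj e] at ht
    have h3 := (le_abs_self _).trans ht
    have h4 : ((C : ℝ) + 1) ^ (8 * n + 9) < L.length := by linarith
    have h5 : (C + 1) ^ (8 * n + 9) < L.length := by exact_mod_cast h4
    have h6 := norm_wF n
    exact lt_of_le_of_lt (Nat.pow_le_pow_right (Nat.succ_pos C) (by omega)) h5

theorem fin_LL {E T U : Type} [Finite E] [Finite T] [Finite U] : Finite (LL E T U) := by
  have : Finite (NA U) := inferInstance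
  have : Finite (NA U × Bool) := inferInstance
  have : Finite ((T × NA U) × Fin 4 × Bool) := inferInstance
  infer_instance

theorem fin_E2 : Finite E2 := by
  have : Finite U1 := inferInstance
  have : Finite E1 := fin_LL
  have : Finite T2 := inferInstance
  have : Finite U2 := inferInstance
  exact fin_LL

end Pool.Agent.Lib.MP_67573e_al
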