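import Pool.Agent.Lib.MP_67573e_al.Median

set_option autoImplicit false

namespace Pool.Agent.Lib.MP_67573e_al

namespace CubePres

variable {A B : Type}

/-- a locally convex set of letters -/
structure Closed (P : CubePres A) (S : A → Prop) : Prop where
  inv : ∀ x, S x → S (P.inv x)
  sq : ∀ {x y y' x'}, P.Sq x y y' x' → S x → S y → S y'

theorem closed_top (P : CubePres A) : P.Closed (fun _ => True) := ⟨fun _ _ => trivial,
  fun _ _ _ => trivial⟩

inductive GSq (P : CubePres A) (S : A → Prop) (R : CubePres B) :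
    A ⊕ B → A ⊕ B → A ⊕ B → A ⊕ B → Prop
  | ll {x y y' x' : A} : P.Sq x y y' x' → GSq P S R (.inl x) (.inl y) (.inl y') (.inl x')
  | rr {x y y' x' : B} : R.Sq x y y' x' → GSq P S R (.inr x) (.inr y) (.inr y') (.inr x')
  | lr {x : A} (y : B) : S x → GSq P S R (.inl x) (.inr y) (.inr y) (.inl x)
  | rl {x : A} (y : B) : S x → GSq P S R (.inr y) (.inl x) (.inl x) (.inr y)

/-- amalgam of `P` with the product of its convex part `S` and `R` -/
def glue (P : CubePres A) (S : A → Prop) (hS : P.Closed S) (R : CubePres B) :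
    CubePres (A ⊕ B) where
  inv := Sum.map P.inv R.inv
  inv_inv := by rintro (x | x) <;> simp [inv_inv]
  Sq := GSq P S R
  ne := by
    intro x y y' x' h
    cases h with
    | ll h => simpa using P.ne h
    | rr h => simpa using R.ne h
    | lr => simp
    | rl => simp
  symm := by
    intro x y y' x' h
    cases h with
    | ll h => exact .ll (P.symm h)
    | rr h => exact .rr (R.symm h)
    | lr y h => exact .rl y h
    | rl y h => exact .lr y h
  rot := by
    intro x y y' x' h
    cases h with
    | ll h => exact .ll (P.rot h)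
    | rr h => exact .rr (R.rot h)
    | lr y h => exact .lr y (hS.inv _ h)
    | rl y h => exact .rl _ h
  uniq := by
    intro x y y' x' y'' x'' h h'
    cases h with
    | ll h => cases h' with
      | ll h' => obtain ⟨rfl, rfl⟩ := P.uniq h h'; exact ⟨rfl, rfl⟩
    | rr h => cases h' with
      | rr h' => obtain ⟨rfl, rfl⟩ := R.uniq h h'; exact ⟨rfl, rfl⟩
    | lr y h => cases h'; exact ⟨rfl, rfl⟩
    | rl y h => cases h'; exact ⟨rfl, rfl⟩
  cube := by
    intro x y z yx xy zx xz zy yz h1 h2 h3
    cases h1 with
    | ll h1 =>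
      cases h2 with
      | ll h2 =>
        cases h3 with
        | ll h3 =>
          obtain ⟨X, Y, Z, c1, c2, c3⟩ := P.cube h1 h2 h3
          exact ⟨_, _, _, .ll c1, .ll c2, .ll c3⟩
      | lr z hx =>
        cases h3 with
        | lr _ hy =>
          exact ⟨_, _, _, .lr z (hS.sq h1 hx hy), .lr z (hS.sq (P.symm h1) hy hx), .ll h1⟩
    | rr h1 =>
      cases h2 with
      | rr h2 =>
        cases h3 with
        | rr h3 =>
          obtain ⟨X, Y, Z, c1, c2, c3⟩ := R.cube h1 h2 h3
          exact ⟨_, _, _, .rr c1, .rr c2, .rr c3⟩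
      | rl _ hz =>
        cases h3 with
        | rl _ _ => exact ⟨_, _, _, .rl _ hz, .rl _ hz, .rr h1⟩
    | lr y hx =>
      cases h2 with
      | ll h2 =>
        cases h3 with
        | rl _ hz =>
          exact ⟨_, _, _, .rl y (hS.sq h2 hx hz), .ll h2, .lr y (hS.sq (P.symm h2) hz hx)⟩
      | lr z _ =>
        cases h3 with
        | rr h3 => exact ⟨_, _, _, .rr h3, .lr _ hx, .lr _ hx⟩
    | rl x hy =>
      cases h2 with
      | rr h2 =>
        cases h3 with
        | lr _ _ => exact ⟨_, _, _, .lr _ hy, .rr h2, .rl _ hy⟩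
      | rl _ hz =>
        cases h3 with
        | ll h3 =>
          exact ⟨_, _, _, .ll h3, .rl x (hS.sq h3 hy hz), .rl x (hS.sq (P.symm h3) hz hy)⟩

section
variable (P : CubePres A) (S : A → Prop) (hS : P.Closed S) (R : CubePres B)

/-- left inclusion -/
def ginl : P.Grp →* (P.glue S hS R).Grp :=
  P.lift (fun x => (P.glue S hS R).of (.inl x)) (fun x => (P.glue S hS R).of_inv (.inl x))
    (fun _ _ _ _ h => of_sq (P := P.glue S hS R) (GSq.ll h))

/-- right inclusion -/
def ginr : R.Grp →* (P.glue S hS R).Grp :=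
  R.lift (fun x => (P.glue S hS R).of (.inr x)) (fun x => (P.glue S hS R).of_inv (.inr x))
    (fun _ _ _ _ h => of_sq (P := P.glue S hS R) (GSq.rr h))

theorem ginl_of (x : A) : ginl P S hS R (P.of x) = (P.glue S hS R).of (.inl x) :=
  P.lift_of _ _ _ x

theorem ginr_of (x : B) : ginr P S hS R (R.of x) = (P.glue S hS R).of (.inr x) :=
  R.lift_of _ _ _ x

theorem gcomm {x : A} (hx : S x) (g : R.Grp) :
    Commute (ginl P S hS R (P.of x)) (ginr P S hS R g) := by
  have := R.generated_by ((Subgroup.centralizer {ginl P S hS R (P.of x)}).comap (ginr P S hS R))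
    (fun y => by
      rw [Subgroup.mem_comap, Subgroup.mem_centralizer_singleton_iff, ginl_of, ginr_of]
      exact (of_sq (P := P.glue S hS R) (GSq.lr y hx)).symm) g
  rw [Subgroup.mem_comap, Subgroup.mem_centralizer_singleton_iff] at this
  exact this.symm

variable {Q : Type} [Group Q] (F : P.Grp →* Q) (F' : R.Grp →* Q)
  (hc : ∀ x, S x → ∀ y, Commute (F (P.of x)) (F' (R.of y)))

/-- universal property of the amalgam -/
def glift : (P.glue S hS R).Grp →* Q :=
  (P.glue S hS R).lift (Sum.elim (fun x => F (P.of x)) (fun y => F' (R.of y)))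
    (by rintro (x | x) <;> simp [glue, of_inv])
    (by
      intro x y y' x' h
      cases h with
      | ll h => simp only [Sum.elim_inl, ← map_mul, of_sq h]
      | rr h => simp only [Sum.elim_inr, ← map_mul, of_sq h]
      | lr y h => exact hc _ h y
      | rl y h => exact (hc _ h y).symm)

theorem glift_inl (g : P.Grp) : glift P S hS R F F' hc (ginl P S hS R g) = F g := by
  have : (glift P S hS R F F' hc).comp (ginl P S hS R) = F :=
    P.hom_ext (fun x => by
      rw [MonoidHom.comp_apply, ginl_of]
      exact (P.glue S hS R).lift_of _ _ _ _)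
  exact DFunLike.congr_fun this g

theorem glift_inr (g : R.Grp) : glift P S hS R F F' hc (ginr P S hS R g) = F' g := by
  have : (glift P S hS R F F' hc).comp (ginr P S hS R) = F' :=
    R.hom_ext (fun x => by
      rw [MonoidHom.comp_apply, ginr_of]
      exact (P.glue S hS R).lift_of _ _ _ _)
  exact DFunLike.congr_fun this g

theorem closed_inl {S' : A → Prop} (hS' : P.Closed S') :
    (P.glue S hS R).Closed (fun x => ∃ a, S' a ∧ x = .inl a) where
  inv := by
    rintro _ ⟨a, ha, rfl⟩
    exact ⟨_, hS'.inv a ha, rfl⟩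
  sq := by
    rintro x y y' x' h ⟨a, ha, rfl⟩ ⟨b, hb, rfl⟩
    cases h with
    | ll h => exact ⟨_, hS'.sq h ha hb, rfl⟩

end

/-- the circle -/
def circ : CubePres Bool where
  inv := not
  inv_inv := by simp
  Sq := fun _ _ _ _ => False
  ne := fun h => h.elim
  symm := fun h => h.elim
  rot := fun h => h.elim
  uniq := fun h => h.elim
  cube := fun h => h.elim

/-- universal property of the circle group -/
def circLift {Q : Type} [Group Q] (q : Q) : circ.Grp →* Q :=
  circ.lift (fun b => if b then q else q⁻¹) (by rintro (_ | _) <;> simp [circ])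
    (fun _ _ _ _ h => h.elim)

theorem circLift_true {Q : Type} [Group Q] (q : Q) : circLift q (circ.of true) = q :=
  circ.lift_of _ _ _ _

theorem circLift_false {Q : Type} [Group Q] (q : Q) : circLift q (circ.of false) = q⁻¹ :=
  circ.lift_of _ _ _ _

theorem circ_of_false : circ.of false = (circ.of true)⁻¹ := circ.of_inv true

end CubePres

end Pool.Agent.Lib.MP_67573e_al
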