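import Pool.Agent.Lib.MP_67573e_al.Glue

set_option autoImplicit false

namespace Pool.Agent.Lib.MP_67573e_al

/-- new letters: two weighted ones, horizontal fillers, vertical fillers -/
abbrev NA (U : Type) : Type := Bool ⊕ U ⊕ U

/-- all letters of a layer -/
abbrev LL (E T U : Type) : Type := E ⊕ (NA U × Bool) ⊕ ((T × NA U) × Fin 4 × Bool)

/-- data of a Rips layer -/
structure LData (E T U : Type) where
  P : CubePres E
  tau : T → E
  kap : T → SignType
  emb : T × NA U ↪ U × U

/-- the two variable letters of the top side -/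
def dd {U : Type} (k : SignType) (a : NA U) (h : U) : (NA U × Bool) × (NA U × Bool) :=
  match k, a with
  | .pos, .inl false => ((.inl true, true), (.inr (.inl h), true))
  | .pos, .inl true => ((.inl false, true), (.inl true, true))
  | .neg, .inl false => ((.inl true, true), (.inl false, false))
  | .neg, .inl true => ((.inl false, true), (.inr (.inl h), true))
  | .zero, .inl s => ((.inl s, true), (.inr (.inl h), true))
  | _, .inr _ => ((.inr (.inl h), true), (.inr (.inl h), true))

namespace LData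

variable {E T U : Type} (L : LData E T U)

/-- inversion of letters -/
def linv : LL E T U → LL E T U
  | .inl x => .inl (L.P.inv x)
  | .inr (.inl (a, b)) => .inr (.inl (a, !b))
  | .inr (.inr (i, j, b)) => .inr (.inr (i, j, !b))

theorem linv_linv (x : LL E T U) : L.linv (L.linv x) = x := by
  rcases x with x | ⟨a, b⟩ | ⟨i, j, b⟩ <;> simp [linv, L.P.inv_inv]

/-- signed letter -/
def sgn (b : Bool) (x : LL E T U) : LL E T U := if b then x else L.linv x

/-- filler letters of a row -/
def hL (i : T × NA U) : LL E T U := .inr (.inl (.inr (.inl (L.emb i).2), true))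

/-- vertical filler letter of a row -/
def vL (i : T × NA U) : LL E T U := .inr (.inl (.inr (.inr (L.emb i).1), true))

/-- vertical edges of a row -/
def vert (i : T × NA U) : Fin 6 → LL E T U :=
  ![L.vL i, .inr (.inr (i, 0, true)), .inr (.inr (i, 1, true)), .inr (.inr (i, 2, true)),
    .inr (.inr (i, 3, true)), L.vL i]

/-- bottom and top side of a row -/
def side (up : Bool) (i : T × NA U) : Fin 5 → LL E T U :=
  if up then ![L.hL i, .inl (L.P.inv (L.tau i.1)), .inr (.inl (i.2, true)), .inl (L.tau i.1), L.hL i]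
  else ![L.hL i, .inr (.inl (dd (L.kap i.1) i.2 (L.emb i).2).1),
    .inr (.inl (dd (L.kap i.1) i.2 (L.emb i).2).2), L.hL i, L.hL i]

/-- position of the vertical edge at a corner -/
def pos (left : Bool) (j : Fin 5) : Fin 6 := if left then j.castSucc else j.succ

/-- corners of the new squares, vertical letter first -/
def Cor (v h h' v' : LL E T U) : Prop :=
  ∃ (i : T × NA U) (j : Fin 5) (up left : Bool), v = L.sgn up (L.vert i (pos left j)) ∧
    h = L.sgn left (L.side up i j) ∧ h' = L.sgn left (L.side (!up) i j) ∧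
    v' = L.sgn up (L.vert i (pos (!left) j))

/-- old squares -/
def OSq (x y y' x' : LL E T U) : Prop :=
  ∃ a b b' a', L.P.Sq a b b' a' ∧ x = .inl a ∧ y = .inl b ∧ y' = .inl b' ∧ x' = .inl a'

/-- class of a letter -/
def cls : LL E T U → ℕ
  | .inl _ => 0
  | .inr (.inl (.inl _, _)) => 1
  | .inr (.inl (.inr (.inl _), _)) => 2
  | .inr (.inl (.inr (.inr _), _)) => 3
  | .inr (.inr _) => 4

theorem cls_linv (x : LL E T U) : cls (L.linv x) = cls x := by
  rcases x with x | ⟨a | a | a, b⟩ | ⟨i, j, b⟩ <;> simp [linv, cls]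

theorem cls_sgn (b : Bool) (x : LL E T U) : cls (L.sgn b x) = cls x := by
  cases b <;> simp [sgn, cls_linv]

theorem sgn_not (b : Bool) (x : LL E T U) : L.linv (L.sgn b x) = L.sgn (!b) x := by
  cases b <;> simp [sgn, linv_linv]

theorem sgn_inj {b : Bool} {x y : LL E T U} (h : L.sgn b x = L.sgn b y) : x = y := by
  cases b
  · simp only [sgn] at h
    rw [← L.linv_linv x, ← L.linv_linv y]
    exact congrArg _ h
  · exact h

theorem cls_new_ne (p : NA U × Bool) :
    cls (.inr (.inl p) : LL E T U) ≠ 0 ∧ cls (.inr (.inl p) : LL E T U) ≠ 4 := by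
  rcases p with ⟨a | a | a, b⟩ <;> simp [cls]

theorem cls_side_ne (up : Bool) (i : T × NA U) (j : Fin 5) : cls (L.side up i j) ≠ 4 := by
  cases up <;> fin_cases j <;> simp [side, hL] <;>
    first | exact (cls_new_ne _).2 | simp [cls]

theorem cls_vert (i : T × NA U) (k : Fin 6) :
    cls (L.vert i k) = 4 ∨ (cls (L.vert i k) = 3 ∧ (k = 0 ∨ k = 5)) := by
  fin_cases k <;> simp [vert, vL, cls]

theorem side_end (up left : Bool) (i : T × NA U) (j : Fin 5)
    (h : pos left j = 0 ∨ pos left j = 5) :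
    L.side up i j = L.hL i ∧ j = (if left then 0 else 4) := by
  cases up <;> cases left <;> fin_cases j <;> simp [pos] at h <;> simp [side]

theorem cor_cls {v h h' v' : LL E T U} (c : L.Cor v h h' v') :
    (cls v = 4 ∧ cls h ≠ 4) ∨ (cls v = 3 ∧ cls h = 2) := by
  obtain ⟨i, j, up, left, rfl, rfl, -, -⟩ := c
  rw [cls_sgn, cls_sgn]
  rcases L.cls_vert i (pos left j) with h | ⟨h, h'⟩
  · exact Or.inl ⟨h, L.cls_side_ne _ _ _⟩
  · refine Or.inr ⟨h, ?_⟩
    rw [(L.side_end up left i j h').1]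
    rfl

theorem osq_cls {x y y' x' : LL E T U} (c : L.OSq x y y' x') : cls x = 0 ∧ cls y = 0 := by
  obtain ⟨a, b, b', a', -, rfl, rfl, -, -⟩ := c
  exact ⟨rfl, rfl⟩

theorem vert_inj {up up' : Bool} {i i' : T × NA U} {k k' : Fin 6}
    (h : L.sgn up (L.vert i k) = L.sgn up' (L.vert i' k')) :
    up = up' ∧ (((k = 0 ∨ k = 5) ∧ (k' = 0 ∨ k' = 5) ∧ (L.emb i).1 = (L.emb i').1) ∨
      (i = i' ∧ k = k')) := by
  cases up <;> cases up' <;> fin_cases k <;> fin_cases k' <;>
    simp [sgn, vert, vL, linv] at h ⊢ <;> tauto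

theorem side_consec (up : Bool) (i : T × NA U) (j j' : Fin 5) (h : pos true j = pos false j') :
    L.side up i j ≠ L.linv (L.side up i j') ∧
      ((cls (L.side up i j) = 0 ∧ cls (L.side up i j') ≠ 0) ∨
      (cls (L.side up i j) ≠ 0 ∧ cls (L.side up i j') = 0) ∨
      ((cls (L.side up i j) = 1 ∨ cls (L.side up i j) = 2) ∧
        (cls (L.side up i j') = 1 ∨ cls (L.side up i j') = 2))) := by
  obtain ⟨t, a⟩ := i
  cases up
  · rcases hk : L.kap t with _ | _ | _ <;> rcases a with (_ | _) | a <;>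
      fin_cases j <;> fin_cases j' <;> simp [pos] at h <;>
      simp [side, hL, cls, linv, dd, hk]
  · rcases a with a | a | a <;> fin_cases j <;> fin_cases j' <;> simp [pos] at h <;>
      simp [side, hL, cls, linv]

theorem pos_inj {left : Bool} {j j' : Fin 5} (h : pos left j = pos left j') : j = j' := by
  cases left
  · exact Fin.succ_injective _ h
  · exact Fin.castSucc_injective _ h

theorem cor_uniq {v h h1 v1 h2 v2 : LL E T U} (c : L.Cor v h h1 v1) (c' : L.Cor v h h2 v2) :
    h1 = h2 ∧ v1 = v2 := by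
  obtain ⟨i, j, up, left, rfl, rfl, rfl, rfl⟩ := c
  obtain ⟨i', j', up', left', e1, e2, rfl, rfl⟩ := c'
  obtain ⟨rfl, ⟨k1, k2, e3⟩ | ⟨rfl, e3⟩⟩ := L.vert_inj e1
  · obtain ⟨s1, s2⟩ := L.side_end up left i j k1
    obtain ⟨s3, s4⟩ := L.side_end up left' i' j' k2
    rw [s1, s3] at e2
    have : left = left' ∧ (L.emb i).2 = (L.emb i').2 := by
      cases left <;> cases left' <;> simp [sgn, hL, linv] at e2 ⊢ <;> exact e2
    obtain ⟨rfl, e4⟩ := this
    have : i = i' := L.emb.injective (Prod.ext e3 e4)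
    subst this
    rw [s2, s4]
    exact ⟨rfl, rfl⟩
  · cases left <;> cases left'
    · rw [pos_inj e3]; exact ⟨rfl, rfl⟩
    · exact absurd e2.symm (L.side_consec up i j' j e3.symm).1
    · exact absurd e2 (L.side_consec up i j j' e3).1
    · rw [pos_inj e3]; exact ⟨rfl, rfl⟩

theorem edge_nbrs {e y y1 e1 z z1 e2 : LL E T U} (c : L.Cor e y y1 e1) (c' : L.Cor e z z1 e2)
    (he : cls e = 4) : y = z ∨ (cls y = 0 ∧ cls z ≠ 0) ∨ (cls y ≠ 0 ∧ cls z = 0) ∨
      ((cls y = 1 ∨ cls y = 2) ∧ (cls z = 1 ∨ cls z = 2)) := by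
  obtain ⟨i, j, up, left, rfl, rfl, -, -⟩ := c
  obtain ⟨i', j', up', left', e1, rfl, -, -⟩ := c'
  obtain ⟨rfl, ⟨k1, k2, e3⟩ | ⟨rfl, e3⟩⟩ := L.vert_inj e1
  · exfalso
    rw [cls_sgn] at he
    rcases k1 with k1 | k1 <;> rw [k1] at he <;> simp [vert, vL, cls] at he
  · simp only [cls_sgn]
    cases left <;> cases left'
    · rw [pos_inj e3]; exact Or.inl rfl
    · have := (L.side_consec up i j' j e3.symm).2
      tauto
    · exact Or.inr (L.side_consec up i j j' e3).2
    · rw [pos_inj e3]; exact Or.inl rfl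

/-- squares of the layer -/
def LSq (x y y' x' : LL E T U) : Prop := L.OSq x y y' x' ∨ L.Cor x y y' x' ∨ L.Cor y x x' y'

theorem lsq_ne {x y y' x' : LL E T U} (h : L.LSq x y y' x') : x ≠ y := by
  rintro rfl
  rcases h with ⟨a, b, b', a', h, e1, e2, -, -⟩ | h | h
  · rw [e1] at e2
    exact L.P.ne h (Sum.inl_injective e2)
  · have := L.cor_cls h; omega
  · have := L.cor_cls h; omega

theorem no_tri {x y z yx xy zx xz zy yz : LL E T U} (h1 : L.LSq x y yx xy)
    (h2 : L.LSq x z zx xz) (h3 : L.LSq y z zy yz) (hx : cls x = 4) : False := by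
  have c1 : L.Cor x y yx xy := by
    rcases h1 with h | h | h
    · have := L.osq_cls h; omega
    · exact h
    · have := L.cor_cls h
      rcases this with ⟨_, h4⟩ | _
      · exact absurd hx h4
      · omega
  have c2 : L.Cor x z zx xz := by
    rcases h2 with h | h | h
    · have := L.osq_cls h; omega
    · exact h
    · have := L.cor_cls h
      rcases this with ⟨_, h4⟩ | _
      · exact absurd hx h4
      · omega
  have a1 := L.cor_cls c1
  have a2 := L.cor_cls c2
  rcases L.edge_nbrs c1 c2 hx with h | h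
  · exact L.lsq_ne h3 h
  · rcases h3 with h3 | h3 | h3
    · have := L.osq_cls h3; omega
    · have := L.cor_cls h3; omega
    · have := L.cor_cls h3; omega

theorem lsq_symm {x y y' x' : LL E T U} (h : L.LSq x y y' x') : L.LSq y x x' y' := by
  rcases h with ⟨a, b, b', a', h, e1, e2, e3, e4⟩ | h | h
  · exact Or.inl ⟨b, a, a', b', L.P.symm h, e2, e1, e4, e3⟩
  · exact Or.inr (Or.inr h)
  · exact Or.inr (Or.inl h)

/-- the Rips layer -/
def layer : CubePres (LL E T U) where
  inv := L.linv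
  inv_inv := L.linv_linv
  Sq := L.LSq
  ne := L.lsq_ne
  symm := L.lsq_symm
  rot := by
    intro x y y' x' h
    rcases h with ⟨a, b, b', a', h, rfl, rfl, rfl, rfl⟩ | h | h
    · exact Or.inl ⟨_, _, _, _, L.P.rot h, rfl, rfl, rfl, rfl⟩
    · obtain ⟨i, j, up, left, rfl, rfl, rfl, rfl⟩ := h
      exact Or.inr (Or.inl ⟨i, j, !up, left, L.sgn_not _ _, rfl, by simp, L.sgn_not _ _⟩)
    · obtain ⟨i, j, up, left, rfl, rfl, rfl, rfl⟩ := h
      exact Or.inr (Or.inr ⟨i, j, up, !left, rfl, L.sgn_not _ _, L.sgn_not _ _, by simp⟩)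
  uniq := by
    intro x y y' x' y'' x'' h h'
    rcases h with h | h | h <;> rcases h' with h' | h' | h'
    · obtain ⟨a, b, b', a', h, rfl, rfl, rfl, rfl⟩ := h
      obtain ⟨c, d, d', c', h', e1, e2, rfl, rfl⟩ := h'
      cases e1
      cases e2
      obtain ⟨rfl, rfl⟩ := L.P.uniq h h'
      exact ⟨rfl, rfl⟩
    · have := L.osq_cls h; have := L.cor_cls h'; omega
    · have := L.osq_cls h; have := L.cor_cls h'; omega
    · have := L.osq_cls h'; have := L.cor_cls h; omega
    · exact L.cor_uniq h h'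
    · have := L.cor_cls h'; have := L.cor_cls h; omega
    · have := L.osq_cls h'; have := L.cor_cls h; omega
    · have := L.cor_cls h'; have := L.cor_cls h; omega
    · exact (L.cor_uniq h h').symm
  cube := by
    intro x y z yx xy zx xz zy yz h1 h2 h3
    by_cases hx : cls x = 4
    · exact (L.no_tri h1 h2 h3 hx).elim
    by_cases hy : cls y = 4
    · exact (L.no_tri (L.lsq_symm h1) h3 h2 hy).elim
    by_cases hz : cls z = 4
    · exact (L.no_tri (L.lsq_symm h2) (L.lsq_symm h3) h1 hz).elim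
    rcases h1 with h1 | h1 | h1 <;> rcases h2 with h2 | h2 | h2 <;> rcases h3 with h3 | h3 | h3
    · obtain ⟨a, b, b', a', h1, rfl, rfl, rfl, rfl⟩ := h1
      obtain ⟨a1, c, c', a'', h2, e1, rfl, rfl, rfl⟩ := h2
      obtain ⟨b1, c1, c'', b'', h3, e2, e3, rfl, rfl⟩ := h3
      cases e1
      cases e2
      cases e3
      obtain ⟨X, Y, Z, c1, c2, c3⟩ := L.P.cube h1 h2 h3
      exact ⟨.inl X, .inl Y, .inl Z, Or.inl ⟨_, _, _, _, c1, rfl, rfl, rfl, rfl⟩,
        Or.inl ⟨_, _, _, _, c2, rfl, rfl, rfl, rfl⟩, Or.inl ⟨_, _, _, _, c3, rfl, rfl, rfl, rfl⟩⟩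
    all_goals
      exfalso
      first | have a1 := L.osq_cls h1 | have a1 := L.cor_cls h1
      first | have a2 := L.osq_cls h2 | have a2 := L.cor_cls h2
      first | have a3 := L.osq_cls h3 | have a3 := L.cor_cls h3
      omega

theorem closed_old : L.layer.Closed (fun x => ∃ a, x = .inl a) where
  inv := by
    rintro _ ⟨a, rfl⟩
    exact ⟨_, rfl⟩
  sq := by
    rintro x y y' x' h ⟨a, rfl⟩ ⟨b, rfl⟩
    rcases h with ⟨a, b, b', a', h, -, -, rfl, -⟩ | h | h
    · exact ⟨_, rfl⟩
    · have := L.cor_cls h; simp [cls] at this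
    · have := L.cor_cls h; simp [cls] at this

end LData

end Pool.Agent.Lib.MP_67573e_al
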