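import Pool.Agent.Lib.MP_67573e_al.Layer

set_option autoImplicit false

namespace Pool.Agent.Lib.MP_67573e_al

namespace LData

variable {E T U : Type} (L : LData E T U)

/-- value of a signed new letter -/
def gs {Q : Type} [Group Q] (g : NA U → Q) (p : NA U × Bool) : Q :=
  if p.2 then g p.1 else (g p.1)⁻¹

/-- the word a conjugate of a new letter is equal to -/
def rowW {Q : Type} [Group Q] (g : NA U → Q) (i : T × NA U) : Q :=
  (g (.inr (.inl (L.emb i).2)))⁻¹ * g (.inr (.inr (L.emb i).1)) *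
    (g (.inr (.inl (L.emb i).2)) * gs g (dd (L.kap i.1) i.2 (L.emb i).2).1 *
      gs g (dd (L.kap i.1) i.2 (L.emb i).2).2 * g (.inr (.inl (L.emb i).2)) *
      g (.inr (.inl (L.emb i).2))) * (g (.inr (.inr (L.emb i).1)))⁻¹ *
      (g (.inr (.inl (L.emb i).2)))⁻¹

theorem map_gs {Q Q' : Type} [Group Q] [Group Q'] (F : Q →* Q') (g : NA U → Q)
    (p : NA U × Bool) : F (gs g p) = gs (fun a => F (g a)) p := by
  unfold gs
  split_ifs <;> simp

theorem map_rowW {Q Q' : Type} [Group Q] [Group Q'] (F : Q →* Q') (g : NA U → Q)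
    (i : T × NA U) : F (L.rowW g i) = L.rowW (fun a => F (g a)) i := by
  simp only [rowW, map_mul, map_inv, map_gs]

theorem gs_mem {Q : Type} [Group Q] (g : NA U → Q) (H : Subgroup Q) (h : ∀ a, g a ∈ H)
    (p : NA U × Bool) : gs g p ∈ H := by
  unfold gs
  split_ifs
  · exact h _
  · exact H.inv_mem (h _)

theorem rowW_mem {Q : Type} [Group Q] (g : NA U → Q) (H : Subgroup Q) (h : ∀ a, g a ∈ H)
    (i : T × NA U) : L.rowW g i ∈ H := by
  unfold rowW
  have := gs_mem g H h
  apply_rules [H.mul_mem, H.inv_mem]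

theorem rowW_one {Q : Type} [Group Q] (i : T × NA U) : L.rowW (fun _ => (1 : Q)) i = 1 := by
  simp [rowW, gs]

/-- inclusion of the old group -/
def incl : L.P.Grp →* L.layer.Grp :=
  L.P.lift (fun x => L.layer.of (.inl x)) (fun x => L.layer.of_inv (.inl x))
    (fun _ _ _ _ h => CubePres.of_sq (P := L.layer) (Or.inl ⟨_, _, _, _, h, rfl, rfl, rfl, rfl⟩))

theorem incl_of (x : E) : L.incl (L.P.of x) = L.layer.of (.inl x) := L.P.lift_of _ _ _ x

/-- the new generators -/
def gen (a : NA U) : L.layer.Grp := L.layer.of (.inr (.inl (a, true)))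

theorem of_new (p : NA U × Bool) : L.layer.of (.inr (.inl p)) = gs L.gen p := by
  obtain ⟨a, b⟩ := p
  cases b
  · exact L.layer.of_inv (.inr (.inl (a, true)))
  · rfl

theorem sq_row (i : T × NA U) (j : Fin 5) :
    L.layer.of (L.vert i j.succ) =
      (L.layer.of (L.side true i j))⁻¹ * L.layer.of (L.vert i j.castSucc) *
        L.layer.of (L.side false i j) := by
  have : L.layer.Sq (L.vert i j.castSucc) (L.side true i j) (L.side false i j) (L.vert i j.succ) :=
    Or.inr (Or.inl ⟨i, j, true, true, rfl, rfl, rfl, rfl⟩)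
  have h := CubePres.of_sq this
  rw [mul_assoc, h]
  group

theorem row_rel (t : T) (a : NA U) :
    (L.incl (L.P.of (L.tau t)))⁻¹ * L.gen a * L.incl (L.P.of (L.tau t)) = L.rowW L.gen (t, a) := by
  have h0 := L.sq_row (t, a) 0
  have h1 := L.sq_row (t, a) 1
  have h2 := L.sq_row (t, a) 2
  have h3 := L.sq_row (t, a) 3
  have h4 := L.sq_row (t, a) 4
  have e : L.layer.of (.inl (L.P.inv (L.tau t))) = (L.layer.of (.inl (L.tau t)))⁻¹ :=
    L.layer.of_inv (.inl (L.tau t))
  simp [vert, side, hL, vL, of_new, e] at h0 h1 h2 h3 h4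
  rw [h3, h2, h1, h0] at h4
  simp only [gs, if_true] at h4
  rw [incl_of, rowW]
  simp only [gs]
  generalize L.layer.of (.inl (L.tau t)) = x at *
  generalize L.gen (.inr (.inr (L.emb (t, a)).1)) = v at *
  generalize L.gen (.inr (.inl (L.emb (t, a)).2)) = h at *
  generalize (if (dd (L.kap t) a (L.emb (t, a)).2).1.2 = true then
    L.gen (dd (L.kap t) a (L.emb (t, a)).2).1.1 else
    (L.gen (dd (L.kap t) a (L.emb (t, a)).2).1.1)⁻¹) = d1 at *
  generalize (if (dd (L.kap t) a (L.emb (t, a)).2).2.2 = true then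
    L.gen (dd (L.kap t) a (L.emb (t, a)).2).2.1 else
    (L.gen (dd (L.kap t) a (L.emb (t, a)).2).2.1)⁻¹) = d2 at *
  generalize L.gen a = y at *
  calc x⁻¹ * y * x = h⁻¹ * (h * x⁻¹ * y * x * h * v) * v⁻¹ * h⁻¹ := by group
    _ = _ := by
      have : h * x⁻¹ * y * x * h * v = v * (h * d1 * d2 * h * h) := by
        conv_lhs => rw [h4]
        group
      rw [this]
      group

theorem generated_by (H : Subgroup L.layer.Grp) (h1 : ∀ x, L.incl (L.P.of x) ∈ H)
    (h2 : ∀ a, L.gen a ∈ H) (g : L.layer.Grp) : g ∈ H := by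
  have o : ∀ x, L.layer.of (.inl x) ∈ H := fun x => L.incl_of x ▸ h1 x
  have n : ∀ p, L.layer.of (.inr (.inl p)) ∈ H := fun p => L.of_new p ▸ gs_mem _ H h2 p
  have s : ∀ up i j, L.layer.of (L.side up i j) ∈ H := by
    intro up i j
    cases up <;> fin_cases j <;> simp [side, hL, o, n]
  have v : ∀ i k, L.layer.of (L.vert i k) ∈ H := by
    intro i k
    induction k using Fin.induction with
    | zero => exact n _
    | succ j ih =>
      rw [L.sq_row]
      exact H.mul_mem (H.mul_mem (H.inv_mem (s _ _ _)) ih) (s _ _ _)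
  have e : ∀ i j, L.layer.of (.inr (.inr (i, j, true))) ∈ H := by
    intro i j
    fin_cases j
    · exact v i 1
    · exact v i 2
    · exact v i 3
    · exact v i 4
  refine L.layer.generated_by H ?_ g
  rintro (x | p | ⟨i, j, _ | _⟩)
  · exact o x
  · exact n p
  · have : L.layer.of (.inr (.inr (i, j, false))) = (L.layer.of (.inr (.inr (i, j, true))))⁻¹ :=
      L.layer.of_inv (.inr (.inr (i, j, true)))
    rw [this]
    exact H.inv_mem (e i j)
  · exact e i j

theorem hom_ext {Q : Type} [Group Q] {φ ψ : L.layer.Grp →* Q}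
    (h1 : ∀ x, φ (L.incl (L.P.of x)) = ψ (L.incl (L.P.of x)))
    (h2 : ∀ a, φ (L.gen a) = ψ (L.gen a)) : φ = ψ :=
  MonoidHom.ext (fun g => L.generated_by (φ.eqLocus ψ) h1 h2 g)

section lift
variable {Q : Type} [Group Q] (F : L.P.Grp →* Q) (g : NA U → Q)

/-- values of the inner edges -/
def ev (i : T × NA U) : Fin 4 → Q :=
  let h := g (.inr (.inl (L.emb i).2))
  let v := g (.inr (.inr (L.emb i).1))
  let x := F (L.P.of (L.tau i.1))
  let d1 := gs g (dd (L.kap i.1) i.2 (L.emb i).2).1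
  let d2 := gs g (dd (L.kap i.1) i.2 (L.emb i).2).2
  ![h⁻¹ * v * h, (h * x⁻¹)⁻¹ * v * (h * d1), (h * x⁻¹ * g i.2)⁻¹ * v * (h * d1 * d2),
    (h * x⁻¹ * g i.2 * x)⁻¹ * v * (h * d1 * d2 * h)]

/-- values of all letters -/
def lf : LL E T U → Q
  | .inl x => F (L.P.of x)
  | .inr (.inl p) => gs g p
  | .inr (.inr (i, j, b)) => if b then L.ev F g i j else (L.ev F g i j)⁻¹

theorem lf_inv (x : LL E T U) : L.lf F g (L.linv x) = (L.lf F g x)⁻¹ := by
  rcases x with x | ⟨a, _ | _⟩ | ⟨i, j, _ | _⟩ <;> simp [lf, linv, gs, CubePres.of_inv]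

variable (hrow : ∀ t a, (F (L.P.of (L.tau t)))⁻¹ * g a * F (L.P.of (L.tau t)) = L.rowW g (t, a))
include hrow

theorem lf_sq (i : T × NA U) (j : Fin 5) :
    L.lf F g (L.vert i j.succ) =
      (L.lf F g (L.side true i j))⁻¹ * L.lf F g (L.vert i j.castSucc) *
        L.lf F g (L.side false i j) := by
  obtain ⟨t, a⟩ := i
  have h := hrow t a
  have e : ∀ a, gs g (a, true) = g a := fun a => rfl
  fin_cases j
  · simp [vert, side, hL, vL, lf, ev, e]
  · simp [vert, side, hL, vL, lf, ev, CubePres.of_inv]; group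
  · simp [vert, side, hL, vL, lf, ev, e]; group
  · simp [vert, side, hL, vL, lf, ev, e]; group
  · simp [vert, side, hL, vL, lf, ev, e]
    simp only [rowW] at h
    generalize F (L.P.of (L.tau t)) = x at *
    generalize g (.inr (.inr (L.emb (t, a)).1)) = v at *
    generalize g (.inr (.inl (L.emb (t, a)).2)) = k at *
    generalize gs g (dd (L.kap t) a (L.emb (t, a)).2).1 = d1 at *
    generalize gs g (dd (L.kap t) a (L.emb (t, a)).2).2 = d2 at *
    generalize g a = y at *
    calc v = k⁻¹ * (k⁻¹ * v * (k * d1 * d2 * k * k) * v⁻¹ * k⁻¹)⁻¹ * k⁻¹ * v *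
        (k * d1 * d2 * k) * k := by group
      _ = _ := by rw [← h]; group

theorem lf_cor {v h h' v' : LL E T U} (c : L.Cor v h h' v') :
    L.lf F g v * L.lf F g h' = L.lf F g h * L.lf F g v' := by
  obtain ⟨i, j, up, left, rfl, rfl, rfl, rfl⟩ := c
  have := L.lf_sq F g hrow i j
  cases up <;> cases left <;> simp [sgn, pos, lf_inv, this] <;> group

/-- universal property of the layer -/
def lift : L.layer.Grp →* Q :=
  L.layer.lift (L.lf F g) (L.lf_inv F g) (by
    rintro x y y' x' (⟨a, b, b', a', h, rfl, rfl, rfl, rfl⟩ | h | h)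
    · simp only [lf, ← map_mul, CubePres.of_sq h]
    · exact L.lf_cor F g hrow h
    · exact (L.lf_cor F g hrow h).symm)

theorem lift_incl (x : L.P.Grp) : L.lift F g hrow (L.incl x) = F x := by
  have : (L.lift F g hrow).comp L.incl = F :=
    L.P.hom_ext (fun x => by
      rw [MonoidHom.comp_apply, incl_of]
      exact L.layer.lift_of _ _ _ _)
  exact DFunLike.congr_fun this x

theorem lift_gen (a : NA U) : L.lift F g hrow (L.gen a) = g a :=
  L.layer.lift_of _ _ _ _

end lift

/-- weights of new letters -/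
def wt : NA U → ℤ × ℤ
  | .inl false => (1, 0)
  | .inl true => (0, 1)
  | .inr _ => (0, 0)

/-- the Fibonacci matrix and its inverse -/
def fibs : SignType → ℤ × ℤ → ℤ × ℤ
  | .pos, m => (m.2, m.1 + m.2)
  | .neg, m => (m.2 - m.1, m.1)
  | .zero, m => m

theorem rowW_wt {Q : Type} [Group Q] (D : Multiplicative (ℤ × ℤ) →* Q) (i : T × NA U) :
    L.rowW (fun a => D (Multiplicative.ofAdd (wt a))) i =
      D (Multiplicative.ofAdd (fibs (L.kap i.1) (wt i.2))) := by
  rw [← L.map_rowW D (fun a => Multiplicative.ofAdd (wt a))]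
  congr 1
  obtain ⟨t, a⟩ := i
  simp only [rowW]
  rcases hk : L.kap t with _ | _ | _ <;> rcases a with (_ | _) | a <;>
    simp [dd, gs, wt, fibs, ← ofAdd_add, ← ofAdd_neg]

end LData

end Pool.Agent.Lib.MP_67573e_al
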