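import Pool.Agent.Lib.MP_67573e_al.Words

set_option autoImplicit false

namespace Pool.Agent.Lib.MP_67573e_al

namespace CubePres

variable {A : Type} (P : CubePres A)

/-- relators of the group of a cube presentation -/
def rels : Set (FreeGroup A) :=
  {r | (∃ x, r = FreeGroup.of x * FreeGroup.of (P.inv x)) ∨
    ∃ x y y' x', P.Sq x y y' x' ∧
      r = FreeGroup.of x * FreeGroup.of y' * (FreeGroup.of y * FreeGroup.of x')⁻¹}

/-- the group of a cube presentation -/
abbrev Grp : Type := PresentedGroup P.rels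

/-- generators -/
def of (x : A) : P.Grp := PresentedGroup.of x

theorem of_mul_inv (x : A) : P.of x * P.of (P.inv x) = 1 := by
  have : PresentedGroup.mk P.rels (FreeGroup.of x * FreeGroup.of (P.inv x)) = 1 :=
    PresentedGroup.one_of_mem (Or.inl ⟨x, rfl⟩)
  rw [map_mul] at this
  exact this

theorem of_inv (x : A) : P.of (P.inv x) = (P.of x)⁻¹ :=
  (inv_eq_of_mul_eq_one_right (P.of_mul_inv x)).symm

variable {P} in
theorem of_sq {x y y' x' : A} (h : P.Sq x y y' x') : P.of x * P.of y' = P.of y * P.of x' := by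
  have : PresentedGroup.mk P.rels
      (FreeGroup.of x * FreeGroup.of y' * (FreeGroup.of y * FreeGroup.of x')⁻¹) = 1 :=
    PresentedGroup.one_of_mem (Or.inr ⟨x, y, y', x', h, rfl⟩)
  rw [map_mul, map_mul, map_inv, map_mul, mul_inv_eq_one] at this
  exact this

section lift
variable {Q : Type} [Group Q] (f : A → Q) (hi : ∀ x, f (P.inv x) = (f x)⁻¹)
  (hs : ∀ x y y' x', P.Sq x y y' x' → f x * f y' = f y * f x')

/-- universal property -/
def lift : P.Grp →* Q := PresentedGroup.toGroup (f := f) (by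
  rintro r (⟨x, rfl⟩ | ⟨x, y, y', x', h, rfl⟩)
  · simp [hi]
  · simp only [map_mul, map_inv, FreeGroup.lift_apply_of, hs _ _ _ _ h, mul_inv_cancel])

@[simp] theorem lift_of (x : A) : P.lift f hi hs (P.of x) = f x :=
  PresentedGroup.toGroup.of _

end lift

theorem hom_ext {Q : Type} [Group Q] {φ ψ : P.Grp →* Q} (h : ∀ x, φ (P.of x) = ψ (P.of x)) :
    φ = ψ := PresentedGroup.ext h

theorem generated_by (H : Subgroup P.Grp) (h : ∀ x, P.of x ∈ H) (g : P.Grp) : g ∈ H :=
  PresentedGroup.generated_by _ H h g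

/-- value of a word -/
def val (w : List A) : P.Grp := (w.map P.of).prod

@[simp] theorem val_nil : P.val [] = 1 := rfl

@[simp] theorem val_cons (x : A) (w : List A) : P.val (x :: w) = P.of x * P.val w := by
  simp [val]

@[simp] theorem val_append (u v : List A) : P.val (u ++ v) = P.val u * P.val v := by
  simp [val]

theorem val_rinv (w : List A) : P.val (P.rinv w) = (P.val w)⁻¹ := by
  induction w with
  | nil => simp [rinv]
  | cons c w ih => rw [rinv_cons]; simp [ih, of_inv]

theorem val_surj (g : P.Grp) : ∃ w, P.val w = g := by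
  let H : Subgroup P.Grp :=
    { carrier := {g | ∃ w, P.val w = g}
      one_mem' := ⟨[], rfl⟩
      mul_mem' := by
        rintro _ _ ⟨u, rfl⟩ ⟨v, rfl⟩
        exact ⟨u ++ v, by simp⟩
      inv_mem' := by
        rintro _ ⟨u, rfl⟩
        exact ⟨P.rinv u, P.val_rinv u⟩ }
  exact P.generated_by H (fun x => ⟨[x], by simp⟩) g

variable {P} in
theorem Step.val_eq {u v : List A} (h : P.Step u v) : P.val u = P.val v := by
  induction h with
  | head v h => simp only [val_cons, ← mul_assoc, of_sq h]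
  | cons a _ ih => simp [ih]

variable {P} in
theorem Eqv.val_eq {u v : List A} (h : P.Eqv u v) : P.val u = P.val v := by
  induction h with
  | refl => rfl
  | tail _ h ih => rw [ih, h.val_eq]

/-- reduced words up to square moves -/
def redSetoid : Setoid {w : List A // P.Red w} where
  r u v := P.Eqv u.1 v.1
  iseqv := ⟨fun _ => Eqv.rfl' _, fun h => h.symm', fun h h' => h.trans' h'⟩

/-- classes of reduced words -/
def RC : Type := Quotient P.redSetoid

/-- action of a letter on classes -/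
noncomputable def actQ (x : A) : P.RC → P.RC :=
  Quotient.map (sa := P.redSetoid) (sb := P.redSetoid)
    (fun w => ⟨P.act x w.1, act_red x w.2⟩) (fun _ _ h => act_eqv x h)

theorem actQ_inv (x : A) (c : P.RC) : P.actQ x (P.actQ (P.inv x) c) = c := by
  induction c using Quotient.inductionOn with
  | _ w => exact Quotient.sound (act_act_inv x w.2)

/-- action of a letter as a permutation -/
noncomputable def actPerm (x : A) : Equiv.Perm P.RC where
  toFun := P.actQ x
  invFun := P.actQ (P.inv x)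
  left_inv c := by
    have := P.actQ_inv (P.inv x) c
    rwa [P.inv_inv] at this
  right_inv c := P.actQ_inv x c

/-- the action of the group -/
noncomputable def rho : P.Grp →* Equiv.Perm P.RC := P.lift P.actPerm
  (fun x => by
    ext c
    rw [Equiv.Perm.inv_def]
    rfl)
  (fun x y y' x' h => by
    ext c
    induction c using Quotient.inductionOn with
    | _ w => exact Quotient.sound (act_sq h w.1))

theorem rho_val (w : List A) (hw : P.Red w) :
    P.rho (P.val w) (Quotient.mk P.redSetoid ⟨[], red_nil⟩) = Quotient.mk P.redSetoid ⟨w, hw⟩ := by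
  induction w with
  | nil => simp
  | cons x w ih =>
    rw [val_cons, map_mul, Equiv.Perm.mul_apply, ih hw.tail]
    unfold rho
    rw [lift_of]
    apply Quotient.sound
    show P.Eqv (P.act x w) (x :: w)
    rw [act_neg hw.not_D]
    exact Eqv.rfl' _

variable {P} in
theorem eqv_of_val_eq {u v : List A} (hu : P.Red u) (hv : P.Red v) (h : P.val u = P.val v) :
    P.Eqv u v := by
  have := P.rho_val u hu
  rw [h, P.rho_val v hv] at this
  exact (Quotient.exact this : P.Eqv v u).symm'

open Classical in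
/-- word length -/
noncomputable def len (g : P.Grp) : ℕ :=
  Nat.find (p := fun n => ∃ w : List A, P.val w = g ∧ w.length = n)
    (by obtain ⟨w, hw⟩ := P.val_surj g; exact ⟨_, w, hw, rfl⟩)

theorem len_le (w : List A) : P.len (P.val w) ≤ w.length := by
  classical
  unfold len
  exact Nat.find_min' _ ⟨w, rfl, rfl⟩

theorem exists_geo (g : P.Grp) : ∃ w, P.Red w ∧ P.val w = g ∧ w.length = P.len g := by
  classical
  obtain ⟨w, hw, hl⟩ : ∃ w : List A, P.val w = g ∧ w.length = P.len g := by
    unfold len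
    exact Nat.find_spec (p := fun n => ∃ w : List A, P.val w = g ∧ w.length = n) _
  refine ⟨w, fun p a q h => ?_, hw, hl⟩
  have h1 : P.val (p ++ q) = g := by
    rw [← hw, h.val_eq]
    simp [of_inv]
  have h2 := P.len_le (p ++ q)
  have h3 := h.length_eq
  rw [h1] at h2
  simp at h2 h3
  omega

variable {P} in
theorem Red.len_val {w : List A} (hw : P.Red w) : P.len (P.val w) = w.length := by
  obtain ⟨u, hu, h1, h2⟩ := P.exists_geo (P.val w)
  rw [← h2, (eqv_of_val_eq hu hw h1).length_eq]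

variable {P} in
theorem red_of_len {w : List A} (hw : P.len (P.val w) = w.length) : P.Red w := by
  intro p a q h
  have h1 : P.val (p ++ q) = P.val w := by
    rw [h.val_eq]
    simp [of_inv]
  have h2 := P.len_le (p ++ q)
  have h3 := h.length_eq
  rw [h1] at h2
  simp at h2 h3
  omega

theorem len_mul_le (g h : P.Grp) : P.len (g * h) ≤ P.len g + P.len h := by
  obtain ⟨u, _, rfl, h2⟩ := P.exists_geo g
  obtain ⟨v, _, rfl, h4⟩ := P.exists_geo h
  have := P.len_le (u ++ v)
  simp at this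
  omega

theorem len_inv_le (g : P.Grp) : P.len g⁻¹ ≤ P.len g := by
  obtain ⟨u, _, rfl, h2⟩ := P.exists_geo g
  have := P.len_le (P.rinv u)
  rw [val_rinv, rinv_length] at this
  omega

theorem len_inv (g : P.Grp) : P.len g⁻¹ = P.len g := by
  apply le_antisymm (P.len_inv_le g)
  simpa using P.len_inv_le g⁻¹

theorem len_one : P.len 1 = 0 := by
  have := P.len_le []
  simpa using this

theorem len_of (x : A) : P.len (P.of x) = 1 := by
  have := (red_single (P := P) x).len_val
  simpa using this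

theorem median_exists (n : ℕ) : ∀ g h : P.Grp, P.len g = n → ∃ m,
    P.len m + P.len (m⁻¹ * g) = P.len g ∧ P.len m + P.len (m⁻¹ * h) = P.len h ∧
      P.len (g⁻¹ * m) + P.len (m⁻¹ * h) = P.len (g⁻¹ * h) := by
  induction n using Nat.strong_induction_on with
  | _ n IH =>
  intro g h hg
  obtain ⟨u, hu, rfl, hu2⟩ := P.exists_geo g
  obtain ⟨v, hv, rfl, hv2⟩ := P.exists_geo h
  by_cases hc : ∃ b, P.D u b ∧ P.D v b
  · obtain ⟨b, ⟨u', hu'⟩, ⟨v', hv'⟩⟩ := hc
    have r1 := (hu.of_eqv hu').tail.len_val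
    have r2 := (hv.of_eqv hv').tail.len_val
    have l1 := hu'.length_eq
    have l2 := hv'.length_eq
    simp only [List.length_cons] at l1 l2
    obtain ⟨m, m1, m2, m3⟩ := IH (P.len (P.val u')) (by omega) (P.val u') (P.val v') rfl
    have e1 : P.val u = P.of b * P.val u' := by rw [hu'.val_eq, val_cons]
    have e2 : P.val v = P.of b * P.val v' := by rw [hv'.val_eq, val_cons]
    have f1 : (P.of b * m)⁻¹ * P.val u = m⁻¹ * P.val u' := by rw [e1]; group
    have f2 : (P.of b * m)⁻¹ * P.val v = m⁻¹ * P.val v' := by rw [e2]; group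
    have f3 : (P.val u)⁻¹ * (P.of b * m) = (P.val u')⁻¹ * m := by rw [e1]; group
    have f4 : (P.val u)⁻¹ * P.val v = (P.val u')⁻¹ * P.val v' := by rw [e1, e2]; group
    have t1 := P.len_mul_le (P.of b) m
    rw [len_of] at t1
    have t2 := P.len_mul_le (P.of b * m) ((P.of b * m)⁻¹ * P.val u)
    rw [mul_inv_cancel_left, f1] at t2
    refine ⟨P.of b * m, ?_, ?_, ?_⟩
    · rw [f1]; omega
    · rw [f2]; omega
    · rw [f2, f3, f4]; exact m3
  · refine ⟨1, by simp [len_one], by simp [len_one], ?_⟩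
    have h1 : P.Red (P.rinv u ++ v) := by
      apply red_append v hv
      · rwa [rinv_rinv]
      · rw [rinv_rinv]
        intro b h1 h2
        exact hc ⟨b, h1, h2⟩
    have h2 := h1.len_val
    rw [val_append, val_rinv, List.length_append, rinv_length] at h2
    simp only [mul_one, inv_one, one_mul, len_inv]
    omega

theorem median_unique (g h m m' : P.Grp)
    (m1 : P.len m + P.len (m⁻¹ * g) = P.len g) (m2 : P.len m + P.len (m⁻¹ * h) = P.len h)
    (m3 : P.len (g⁻¹ * m) + P.len (m⁻¹ * h) = P.len (g⁻¹ * h))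
    (n1 : P.len m' + P.len (m'⁻¹ * g) = P.len g) (n2 : P.len m' + P.len (m'⁻¹ * h) = P.len h)
    (n3 : P.len (g⁻¹ * m') + P.len (m'⁻¹ * h) = P.len (g⁻¹ * h)) : m = m' := by
  have i1 : P.len (g⁻¹ * m) = P.len (m⁻¹ * g) := by rw [← len_inv]; simp
  have i2 : P.len (g⁻¹ * m') = P.len (m'⁻¹ * g) := by rw [← len_inv]; simp
  obtain ⟨p, _, hp, lp⟩ := P.exists_geo m
  obtain ⟨p', _, hp', lp'⟩ := P.exists_geo m'
  obtain ⟨q1, rq1, hq1, lq1⟩ := P.exists_geo (m⁻¹ * g)
  obtain ⟨q2, rq2, hq2, lq2⟩ := P.exists_geo (m⁻¹ * h)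
  obtain ⟨q1', _, hq1', lq1'⟩ := P.exists_geo (m'⁻¹ * g)
  obtain ⟨q2', _, hq2', lq2'⟩ := P.exists_geo (m'⁻¹ * h)
  have v1 : P.val (p ++ q1) = g := by simp [hp, hq1]
  have v2 : P.val (p ++ q2) = h := by simp [hp, hq2]
  have v1' : P.val (p' ++ q1') = g := by simp [hp', hq1']
  have v2' : P.val (p' ++ q2') = h := by simp [hp', hq2']
  have r1 : P.Red (p ++ q1) := red_of_len (by rw [v1, List.length_append]; omega)
  have r2 : P.Red (p ++ q2) := red_of_len (by rw [v2, List.length_append]; omega)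
  have r1' : P.Red (p' ++ q1') := red_of_len (by rw [v1', List.length_append]; omega)
  have r2' : P.Red (p' ++ q2') := red_of_len (by rw [v2', List.length_append]; omega)
  rcases join_lemma q1 q2 q1' q2' p' p (by omega) (eqv_of_val_eq r1 r1' (by rw [v1, v1']))
    (eqv_of_val_eq r2 r2' (by rw [v2, v2'])) with e | ⟨b, ⟨t1, ht1⟩, ⟨t2, ht2⟩⟩
  · rw [← hp, ← hp', e.val_eq]
  · exfalso
    have e1 : m⁻¹ * g = P.of b * P.val t1 := by rw [← hq1, ht1.val_eq, val_cons]
    have e2 : m⁻¹ * h = P.of b * P.val t2 := by rw [← hq2, ht2.val_eq, val_cons]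
    have e3 : g⁻¹ * h = (P.val t1)⁻¹ * P.val t2 := by
      have : g⁻¹ * h = (m⁻¹ * g)⁻¹ * (m⁻¹ * h) := by group
      rw [this, e1, e2]
      group
    have t := P.len_mul_le (P.val t1)⁻¹ (P.val t2)
    rw [← e3, len_inv] at t
    have a1 := P.len_le t1
    have a2 := P.len_le t2
    have l1 := ht1.length_eq
    have l2 := ht2.length_eq
    simp only [List.length_cons] at l1 l2
    omega

/-- the Cayley graph -/
def cayley : SimpleGraph P.Grp where
  Adj g h := ∃ x, h = g * P.of x
  symm := ⟨by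
    rintro g h ⟨x, rfl⟩
    exact ⟨P.inv x, by rw [of_inv]; group⟩⟩
  loopless := ⟨by
    rintro g ⟨x, hx⟩
    have h1 : P.of x = 1 := by
      have : g * 1 = g * P.of x := by rw [mul_one]; exact hx
      exact (mul_left_cancel this).symm
    have := P.len_of x
    rw [h1, len_one] at this
    omega⟩

theorem exists_walk (w : List A) : ∀ g : P.Grp,
    ∃ p : P.cayley.Walk g (g * P.val w), p.length = w.length := by
  induction w with
  | nil => intro g; exact ⟨(SimpleGraph.Walk.nil).copy rfl (by simp), by simp⟩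
  | cons x w ih =>
    intro g
    obtain ⟨p, hp⟩ := ih (g * P.of x)
    exact ⟨(SimpleGraph.Walk.cons (show P.cayley.Adj g (g * P.of x) from ⟨x, rfl⟩) p).copy rfl
      (by simp [mul_assoc]), by simp [hp]⟩

theorem len_le_walk {g h : P.Grp} (p : P.cayley.Walk g h) : P.len (g⁻¹ * h) ≤ p.length := by
  induction p with
  | nil => simp [len_one]
  | @cons a b c hab p ih =>
    obtain ⟨x, rfl⟩ := hab
    have t := P.len_mul_le (P.of x) ((a * P.of x)⁻¹ * c)
    have e : P.of x * ((a * P.of x)⁻¹ * c) = a⁻¹ * c := by group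
    rw [e, len_of] at t
    simp only [SimpleGraph.Walk.length_cons]
    omega

theorem exists_walk' (g h : P.Grp) : ∃ p : P.cayley.Walk g h, p.length = P.len (g⁻¹ * h) := by
  obtain ⟨w, _, hw, hl⟩ := P.exists_geo (g⁻¹ * h)
  obtain ⟨p, hp⟩ := P.exists_walk w g
  exact ⟨p.copy rfl (by rw [hw]; group), by simp [hp, hl]⟩

theorem cayley_connected : P.cayley.Connected := by
  have : Nonempty P.Grp := ⟨1⟩
  exact SimpleGraph.Connected.mk (fun g h => ⟨(P.exists_walk' g h).choose⟩)

theorem cayley_dist (g h : P.Grp) : P.cayley.dist g h = P.len (g⁻¹ * h) := by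
  apply le_antisymm
  · obtain ⟨p, hp⟩ := P.exists_walk' g h
    rw [← hp]
    exact SimpleGraph.dist_le p
  · obtain ⟨p, hp⟩ := (P.cayley_connected.preconnected g h).exists_walk_length_eq_dist
    rw [← hp]
    exact P.len_le_walk p

theorem cayley_median (x y z : P.Grp) : ∃! m : P.Grp,
    P.cayley.dist x m + P.cayley.dist m y = P.cayley.dist x y ∧
    P.cayley.dist y m + P.cayley.dist m z = P.cayley.dist y z ∧
    P.cayley.dist x m + P.cayley.dist m z = P.cayley.dist x z := by
  simp only [cayley_dist]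
  have key : ∀ m : P.Grp,
      (P.len (x⁻¹ * m) + P.len (m⁻¹ * y) = P.len (x⁻¹ * y) ∧
      P.len (y⁻¹ * m) + P.len (m⁻¹ * z) = P.len (y⁻¹ * z) ∧
      P.len (x⁻¹ * m) + P.len (m⁻¹ * z) = P.len (x⁻¹ * z)) ↔
      (P.len (x⁻¹ * m) + P.len ((x⁻¹ * m)⁻¹ * (x⁻¹ * y)) = P.len (x⁻¹ * y) ∧
      P.len (x⁻¹ * m) + P.len ((x⁻¹ * m)⁻¹ * (x⁻¹ * z)) = P.len (x⁻¹ * z) ∧
      P.len ((x⁻¹ * y)⁻¹ * (x⁻¹ * m)) + P.len ((x⁻¹ * m)⁻¹ * (x⁻¹ * z)) =
        P.len ((x⁻¹ * y)⁻¹ * (x⁻¹ * z))) := by
    intro m
    have e : ∀ a b : P.Grp, (x⁻¹ * a)⁻¹ * (x⁻¹ * b) = a⁻¹ * b := by intro a b; group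
    simp only [e]
    tauto
  obtain ⟨m, hm⟩ := P.median_exists _ (x⁻¹ * y) (x⁻¹ * z) rfl
  refine ⟨x * m, ?_, fun m' hm' => ?_⟩
  · show _ ∧ _ ∧ _
    rw [key]
    simpa only [inv_mul_cancel_left] using hm
  · have h1 := (key m').1 hm'
    have := P.median_unique _ _ _ _ h1.1 h1.2.1 h1.2.2 hm.1 hm.2.1 hm.2.2
    rw [← this]
    group

theorem cayley_finite [Finite A] (g : P.Grp) : (P.cayley.neighborSet g).Finite := by
  apply (Set.finite_range (fun x => g * P.of x)).subset
  rintro h ⟨x, rfl⟩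
  exact ⟨x, rfl⟩

end CubePres

end Pool.Agent.Lib.MP_67573e_al
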