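import Pool.Agent.Lib.MP_67573e_al.LayerGrp
import Pool.Agent.Lib.MP_67573e_al.Abstract

set_option autoImplicit false

namespace Pool.Agent.Lib.MP_67573e_al

open CubePres LData

/-- distinct rows get distinct pairs of fillers -/
def stdEmb (T : Type) : T × NA (T × Fin 3) ↪ (T × Fin 3) × (T × Fin 3) where
  toFun
    | (t, .inl s) => ((t, 0), (t, if s then 1 else 0))
    | (t, .inr (.inl u)) => ((t, 1), u)
    | (t, .inr (.inr u)) => ((t, 2), u)
  inj' := by
    rintro ⟨t, (_ | _) | u | u⟩ ⟨t', (_ | _) | u' | u'⟩ h <;> simp at h ⊢ <;> tauto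

/-- fillers of the first layer -/
abbrev U1 : Type := Bool × Fin 3

/-- first layer -/
def L1 : LData Bool Bool U1 where
  P := circ
  tau := id
  kap := fun t => if t then .pos else .neg
  emb := stdEmb Bool

/-- letters of the first layer -/
abbrev E1 : Type := LL Bool Bool U1

/-- conjugators of the second layer -/
abbrev T2 : Type := NA U1 × Bool

/-- fillers of the second layer -/
abbrev U2 : Type := T2 × Fin 3

/-- exponents for the second layer -/
def kap2 : T2 → SignType
  | (.inl false, true) => .pos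
  | (.inl false, false) => .neg
  | _ => .zero

/-- second layer -/
def L2 : LData E1 T2 U2 where
  P := L1.layer
  tau := fun p => .inr (.inl p)
  kap := kap2
  emb := stdEmb T2

/-- letters of the second layer -/
abbrev E2 : Type := LL E1 T2 U2

/-- the base group -/
abbrev G : Type := L2.layer.Grp

/-- inclusion of the first layer -/
def io : L1.layer.Grp →* G := L2.incl

/-- generators -/
def s : G := io (L1.incl (circ.of true))

/-- generators -/
def b (y : NA U1) : G := io (L1.gen y)

/-- generators -/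
def a (x : NA U2) : G := L2.gen x

theorem io_false : io (L1.incl (circ.of false)) = s⁻¹ := by
  have : L1.incl (L1.P.of (L1.P.inv true)) = (L1.incl (L1.P.of true))⁻¹ := by
    rw [of_inv, map_inv]
  have h := congrArg io this
  rw [map_inv] at h
  exact h

theorem R1p (y : NA U1) : s⁻¹ * b y * s = L1.rowW b (true, y) := by
  have := congrArg io (L1.row_rel true y)
  rw [map_rowW, map_mul, map_mul, map_inv] at this
  exact this

theorem R1m (y : NA U1) : s * b y * s⁻¹ = L1.rowW b (false, y) := by
  have := congrArg io (L1.row_rel false y)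
  rw [map_rowW, map_mul, map_mul, map_inv] at this
  have e : io (L1.incl (L1.P.of (L1.tau false))) = s⁻¹ := io_false
  rw [e, _root_.inv_inv] at this
  exact this

theorem io_tau (p : T2) : io (L1.layer.of (.inr (.inl p))) = gs b p := by
  rw [of_new, map_gs]
  rfl

theorem R2 (p : T2) (x : NA U2) : (gs b p)⁻¹ * a x * gs b p = L2.rowW a (p, x) := by
  have := L2.row_rel p x
  rw [← io_tau]
  exact this

section lift
variable {Q : Type} [Group Q] (q : Q) (gb : NA U1 → Q) (ga : NA U2 → Q)
  (h1 : ∀ y, q⁻¹ * gb y * q = L1.rowW gb (true, y))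
  (h1' : ∀ y, q * gb y * q⁻¹ = L1.rowW gb (false, y))
  (h2 : ∀ p x, (gs gb p)⁻¹ * ga x * gs gb p = L2.rowW ga (p, x))

/-- universal property of the first layer -/
def Clift : L1.layer.Grp →* Q := L1.lift (circLift q) gb (by
  rintro (_ | _) y
  · show (circLift q (circ.of false))⁻¹ * _ * circLift q (circ.of false) = _
    rw [circLift_false, _root_.inv_inv]
    exact h1' y
  · show (circLift q (circ.of true))⁻¹ * _ * circLift q (circ.of true) = _
    rw [circLift_true]
    exact h1 y)

theorem Clift_new (p : T2) : Clift q gb h1 h1' (L1.layer.of (.inr (.inl p))) = gs gb p := by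
  rw [of_new, map_gs]
  congr 1
  funext y
  exact L1.lift_gen _ _ _ y

/-- universal property of the base group -/
def Glift : G →* Q := L2.lift (Clift q gb h1 h1') ga (by
  intro p x
  have := h2 p x
  rw [← Clift_new q gb h1 h1'] at this
  exact this)

theorem Glift_s : Glift q gb ga h1 h1' h2 s = q := by
  refine (L2.lift_incl _ _ _ _).trans ?_
  refine (L1.lift_incl _ _ _ _).trans ?_
  exact circLift_true q

theorem Glift_b (y : NA U1) : Glift q gb ga h1 h1' h2 (b y) = gb y :=
  (L2.lift_incl _ _ _ _).trans (L1.lift_gen _ _ _ y)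

theorem Glift_a (x : NA U2) : Glift q gb ga h1 h1' h2 (a x) = ga x :=
  L2.lift_gen _ _ _ x

end lift

theorem C_gen (H : Subgroup G) (hs : s ∈ H) (hb : ∀ y, b y ∈ H) (c : L1.layer.Grp) : io c ∈ H := by
  refine L1.generated_by (H.comap io) ?_ hb c
  rintro (_ | _)
  · show io (L1.incl (circ.of false)) ∈ H
    rw [io_false]
    exact H.inv_mem hs
  · exact hs

theorem G_gen (H : Subgroup G) (hs : s ∈ H) (hb : ∀ y, b y ∈ H) (ha : ∀ x, a x ∈ H) (g : G) :
    g ∈ H := L2.generated_by H (fun _ => C_gen H hs hb _) ha g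

theorem G_ext {Q : Type} [Group Q] {φ ψ : G →* Q} (hs : φ s = ψ s) (hb : ∀ y, φ (b y) = ψ (b y))
    (ha : ∀ x, φ (a x) = ψ (a x)) : φ = ψ :=
  MonoidHom.ext (G_gen (φ.eqLocus ψ) hs hb ha)

/-- the distorted subgroup -/
def N : Subgroup G := Subgroup.closure (Set.range a)

/-- the normal subgroup of the first layer -/
def K : Subgroup G := Subgroup.closure (Set.range b)

theorem a_mem (x : NA U2) : a x ∈ N := Subgroup.subset_closure ⟨x, rfl⟩

theorem b_mem (y : NA U1) : b y ∈ K := Subgroup.subset_closure ⟨y, rfl⟩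

theorem conj_closure {Q : Type} [Group Q] (S : Set Q) (g : Q)
    (h : ∀ x ∈ S, g⁻¹ * x * g ∈ Subgroup.closure S) :
    ∀ k ∈ Subgroup.closure S, g⁻¹ * k * g ∈ Subgroup.closure S := by
  intro k hk
  induction hk using Subgroup.closure_induction with
  | mem x hx => exact h x hx
  | one => simp
  | mul x y _ _ hx hy =>
    have := Subgroup.mul_mem _ hx hy
    have e : g⁻¹ * x * g * (g⁻¹ * y * g) = g⁻¹ * (x * y) * g := by group
    rwa [e] at this
  | inv x _ hx =>
    have := Subgroup.inv_mem _ hx
    have e : (g⁻¹ * x * g)⁻¹ = g⁻¹ * x⁻¹ * g := by group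
    rwa [e] at this

theorem mem_norm_closure {Q : Type} [Group Q] (S : Set Q) (g : Q)
    (h : ∀ x ∈ S, g⁻¹ * x * g ∈ Subgroup.closure S)
    (h' : ∀ x ∈ S, g * x * g⁻¹ ∈ Subgroup.closure S) :
    g ∈ Subgroup.normalizer (Subgroup.closure S : Set Q) := by
  rw [Subgroup.mem_normalizer_iff]
  intro k
  constructor
  · intro hk
    have := conj_closure S g⁻¹ (by simpa using h') k hk
    simpa using this
  · intro hk
    have := conj_closure S g h _ hk
    have e : g⁻¹ * (g * k * g⁻¹) * g = k := by group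
    rwa [e] at this

theorem s_norm : s ∈ Subgroup.normalizer (K : Set G) := by
  apply mem_norm_closure
  · rintro _ ⟨y, rfl⟩
    rw [R1p]
    exact L1.rowW_mem b K b_mem _
  · rintro _ ⟨y, rfl⟩
    rw [R1m]
    exact L1.rowW_mem b K b_mem _

theorem K_norm : K ≤ Subgroup.normalizer (N : Set G) := by
  rw [K, Subgroup.closure_le]
  rintro _ ⟨y, rfl⟩
  apply mem_norm_closure
  · rintro _ ⟨x, rfl⟩
    have := R2 (y, true) x
    simp only [gs, if_true] at this
    rw [this]
    exact L2.rowW_mem a N a_mem _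
  · rintro _ ⟨x, rfl⟩
    have := R2 (y, false) x
    simp only [gs, Bool.false_eq_true, if_false, _root_.inv_inv] at this
    rw [this]
    exact L2.rowW_mem a N a_mem _

theorem conj_zpow {k : G} (hk : k ∈ K) (n : ℤ) : (s ^ n)⁻¹ * k * s ^ n ∈ K :=
  (Subgroup.mem_normalizer_iff''.1 (Subgroup.zpow_mem _ s_norm n) k).1 hk

section twist
variable {Q : Type} [Group Q] (F : G →* Q) (z : Q) (hs : Commute z (F s))
  (hb : ∀ y, Commute z (F (b y)))

include hs hb in
theorem comm_io (c : L1.layer.Grp) : Commute z (F (io c)) := by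
  have := C_gen ((Subgroup.centralizer {z}).comap F)
    (by rw [Subgroup.mem_comap, Subgroup.mem_centralizer_singleton_iff]; exact hs.symm)
    (fun y => by
      rw [Subgroup.mem_comap, Subgroup.mem_centralizer_singleton_iff]; exact (hb y).symm) c
  rw [Subgroup.mem_comap, Subgroup.mem_centralizer_singleton_iff] at this
  exact this.symm

/-- twisting a homomorphism by an element centralising the first layer -/
def twist : G →* Q := Glift (F s * z) (fun y => F (b y)) (fun x => F (a x))
  (fun y => by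
    rw [← map_rowW, ← R1p, map_mul, map_mul, map_inv]
    have : Commute z ((F s)⁻¹ * F (b y) * F s) := (hs.inv_right.mul_right (hb y)).mul_right hs
    calc (F s * z)⁻¹ * F (b y) * (F s * z) = z⁻¹ * (((F s)⁻¹ * F (b y) * F s) * z) := by group
      _ = _ := by rw [← this.eq]; group)
  (fun y => by
    rw [← map_rowW, ← R1m, map_mul, map_mul, map_inv]
    calc F s * z * F (b y) * (F s * z)⁻¹ = F s * (z * F (b y)) * z⁻¹ * (F s)⁻¹ := by group
      _ = _ := by rw [(hb y).eq]; group)
  (fun p x => by rw [← map_rowW, ← R2, map_mul, map_mul, map_inv, map_gs])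

theorem twist_s : twist F z hs hb s = F s * z := Glift_s _ _ _ _ _ _

theorem twist_b (y : NA U1) : twist F z hs hb (b y) = F (b y) := Glift_b _ _ _ _ _ _ y

theorem twist_a (x : NA U2) : twist F z hs hb (a x) = F (a x) := Glift_a _ _ _ _ _ _ x

end twist

/-- retraction onto the first layer -/
def r : G →* G := Glift s b (fun _ => 1) R1p R1m (fun p x => by rw [rowW_one]; simp)

theorem r_s : r s = s := Glift_s _ _ _ _ _ _

theorem r_b (y : NA U1) : r (b y) = b y := Glift_b _ _ _ _ _ _ y

theorem r_a (x : NA U2) : r (a x) = 1 := Glift_a _ _ _ _ _ _ x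

theorem r_K {k : G} (hk : k ∈ K) : r k = k := by
  have : K ≤ r.eqLocus (MonoidHom.id G) := by
    rw [K, Subgroup.closure_le]
    rintro _ ⟨y, rfl⟩
    exact r_b y
  exact this hk

theorem r_N {k : G} (hk : k ∈ N) : r k = 1 := by
  have : N ≤ r.ker := by
    rw [N, Subgroup.closure_le]
    rintro _ ⟨y, rfl⟩
    exact r_a y
  exact this hk

/-- the product `N K` -/
def As : Subgroup G where
  carrier := {g | ∃ n ∈ N, ∃ k ∈ K, g = n * k}
  one_mem' := ⟨1, N.one_mem, 1, K.one_mem, by simp⟩
  mul_mem' := by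
    rintro _ _ ⟨n, hn, k, hk, rfl⟩ ⟨n', hn', k', hk', rfl⟩
    exact ⟨n * (k * n' * k⁻¹), N.mul_mem hn
      ((Subgroup.mem_normalizer_iff.1 (K_norm hk) n').1 hn'), k * k', K.mul_mem hk hk', by group⟩
  inv_mem' := by
    rintro _ ⟨n, hn, k, hk, rfl⟩
    exact ⟨k⁻¹ * n⁻¹ * k, (Subgroup.mem_normalizer_iff''.1 (K_norm hk) n⁻¹).1 (N.inv_mem hn),
      k⁻¹, K.inv_mem hk, by group⟩

theorem K_le_As {k : G} (hk : k ∈ K) : k ∈ As := ⟨1, N.one_mem, k, hk, by simp⟩

theorem N_le_As {k : G} (hk : k ∈ N) : k ∈ As := ⟨k, hk, 1, K.one_mem, by simp⟩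

theorem mem_N {g : G} (h : g ∈ As) (h' : r g = 1) : g ∈ N := by
  obtain ⟨n, hn, k, hk, rfl⟩ := h
  rw [map_mul, r_N hn, r_K hk, one_mul] at h'
  rw [h', mul_one]
  exact hn

end Pool.Agent.Lib.MP_67573e_al
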