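import Mathlib

set_option autoImplicit false

namespace Pool.Agent.Lib.MP_67573e_al

/-- A one-vertex non-positively curved cube complex, given by its squares. -/
structure CubePres (A : Type) where
  inv : A → A
  inv_inv : ∀ x, inv (inv x) = x
  Sq : A → A → A → A → Prop
  ne : ∀ {x y y' x'}, Sq x y y' x' → x ≠ y
  symm : ∀ {x y y' x'}, Sq x y y' x' → Sq y x x' y'
  rot : ∀ {x y y' x'}, Sq x y y' x' → Sq (inv x) y' y (inv x')
  uniq : ∀ {x y y' x' y'' x''}, Sq x y y' x' → Sq x y y'' x'' → y' = y'' ∧ x' = x''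
  cube : ∀ {x y z yx xy zx xz zy yz}, Sq x y yx xy → Sq x z zx xz → Sq y z zy yz →
    ∃ X Y Z, Sq yx zx Z Y ∧ Sq xy zy Z X ∧ Sq xz yz Y X

namespace CubePres

variable {A : Type} (P : CubePres A)

theorem inv_inj {x y : A} (h : P.inv x = P.inv y) : x = y := by
  rw [← P.inv_inv x, h, P.inv_inv]

inductive Step : List A → List A → Prop
  | head {x y y' x' : A} (v : List A) : P.Sq x y y' x' → Step (x :: y' :: v) (y :: x' :: v)
  | cons (a : A) {u v : List A} : Step u v → Step (a :: u) (a :: v)

def Eqv : List A → List A → Prop := Relation.ReflTransGen P.Step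

variable {P}

theorem Step.symm' {u v : List A} (h : P.Step u v) : P.Step v u := by
  induction h with
  | head v h => exact Step.head v (P.symm h)
  | cons a _ ih => exact Step.cons a ih

theorem Step.length_eq {u v : List A} (h : P.Step u v) : u.length = v.length := by
  induction h with
  | head v h => simp
  | cons a _ ih => simp [ih]

theorem Step.append_right {u v : List A} (h : P.Step u v) (w : List A) :
    P.Step (u ++ w) (v ++ w) := by
  induction h with
  | head v h => exact Step.head _ h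
  | cons a _ ih => exact Step.cons a ih

theorem Eqv.rfl' (u : List A) : P.Eqv u u := Relation.ReflTransGen.refl

theorem Eqv.trans' {u v w : List A} (h : P.Eqv u v) (h' : P.Eqv v w) : P.Eqv u w :=
  Relation.ReflTransGen.trans h h'

theorem Step.eqv {u v : List A} (h : P.Step u v) : P.Eqv u v := Relation.ReflTransGen.single h

theorem Eqv.symm' {u v : List A} (h : P.Eqv u v) : P.Eqv v u := by
  induction h with
  | refl => exact Eqv.rfl' _
  | tail _ h ih => exact h.symm'.eqv.trans' ih

theorem Eqv.length_eq {u v : List A} (h : P.Eqv u v) : u.length = v.length := by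
  induction h with
  | refl => rfl
  | tail _ h ih => rw [ih, h.length_eq]

theorem Eqv.cons (a : A) {u v : List A} (h : P.Eqv u v) : P.Eqv (a :: u) (a :: v) := by
  induction h with
  | refl => exact Eqv.rfl' _
  | tail _ h ih => exact ih.trans' (Step.cons a h).eqv

theorem Eqv.append_left (w : List A) {u v : List A} (h : P.Eqv u v) :
    P.Eqv (w ++ u) (w ++ v) := by
  induction w with
  | nil => exact h
  | cons a w ih => exact ih.cons a

theorem Eqv.append_right {u v : List A} (h : P.Eqv u v) (w : List A) :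
    P.Eqv (u ++ w) (v ++ w) := by
  induction h with
  | refl => exact Eqv.rfl' _
  | tail _ h ih => exact ih.trans' (h.append_right w).eqv

theorem sq_eqv {x y y' x' : A} (h : P.Sq x y y' x') (v : List A) :
    P.Eqv (x :: y' :: v) (y :: x' :: v) := (Step.head v h).eqv

/-- Garside's lemma. -/
theorem garside_aux (n : ℕ) : ∀ (x : A) (u : List A) (w : List A), u.length = n →
    P.Eqv (x :: u) w → ∀ (y : A) (v : List A), w = y :: v →
    (x = y ∧ P.Eqv u v) ∨
      ∃ y' x' r, P.Sq x y y' x' ∧ P.Eqv u (y' :: r) ∧ P.Eqv v (x' :: r) := by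
  induction n using Nat.strong_induction_on with
  | _ n IH =>
  intro x u w hu h
  induction h with
  | refl =>
    intro y v hw
    cases hw
    exact Or.inl ⟨rfl, Eqv.rfl' _⟩
  | @tail b c hb hbc ih =>
    intro y v hw
    cases hbc with
    | @cons a w1 w2 h12 =>
      cases hw
      rcases ih _ _ rfl with ⟨rfl, h⟩ | ⟨y', x', r, hs, h1, h2⟩
      · exact Or.inl ⟨rfl, h.trans' h12.eqv⟩
      · exact Or.inr ⟨y', x', r, hs, h1, h12.symm'.eqv.trans' h2⟩
    | @head z y0 yz zy t hzy =>
      cases hw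
      rcases ih _ _ rfl with ⟨rfl, h⟩ | ⟨zx, xz, r, hs, h1, h2⟩
      · exact Or.inr ⟨yz, zy, t, hzy, h, Eqv.rfl' _⟩
      · have hlen : r.length < n := by
          have := h1.length_eq
          simp at this
          omega
        rcases IH r.length hlen xz r _ rfl h2.symm' yz t rfl with ⟨rfl, h3⟩ | ⟨Y, X, q, hs3, h3, h4⟩
        · have e1 := P.rot (P.symm hs)
          have e2 := P.rot hzy
          obtain ⟨rfl, e3⟩ := P.uniq e1 e2
          have e4 := P.inv_inj e3
          subst e4
          exact Or.inl ⟨rfl, h1.trans' (h3.cons _)⟩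
        · have e1 := P.rot (P.symm hs)
          have e2 := P.rot hzy
          obtain ⟨X', Y', Z', c1, c2, c3⟩ := P.cube e1 e2 hs3
          have d2 := P.rot c2
          have d3 := P.rot c3
          rw [P.inv_inv] at d2 d3
          refine Or.inr ⟨Z', Y', P.inv X' :: q, c1, ?_, ?_⟩
          · exact h1.trans' ((h3.cons _).trans' (sq_eqv d2 q))
          · exact (h4.cons _).trans' (sq_eqv d3 q)

theorem garside {x y : A} {u v : List A} (h : P.Eqv (x :: u) (y :: v)) :
    (x = y ∧ P.Eqv u v) ∨
      ∃ y' x' r, P.Sq x y y' x' ∧ P.Eqv u (y' :: r) ∧ P.Eqv v (x' :: r) :=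
  garside_aux _ x u _ rfl h y v rfl

theorem Eqv.cancel {x : A} {u v : List A} (h : P.Eqv (x :: u) (x :: v)) : P.Eqv u v := by
  rcases garside h with ⟨_, h⟩ | ⟨_, _, _, hs, _⟩
  · exact h
  · exact absurd rfl (P.ne hs)

variable (P) in
/-- `x` is a left divisor of `w`. -/
def D (w : List A) (x : A) : Prop := ∃ u, P.Eqv w (x :: u)

variable (P) in
/-- reduced words -/
def Red (w : List A) : Prop := ∀ p a q, ¬ P.Eqv w (p ++ a :: P.inv a :: q)

theorem D.of_eqv {w w' : List A} {x : A} (h : P.D w x) (e : P.Eqv w' w) : P.D w' x := by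
  obtain ⟨u, hu⟩ := h
  exact ⟨u, e.trans' hu⟩

theorem D.append {w : List A} {x : A} (h : P.D w x) (q : List A) : P.D (w ++ q) x := by
  obtain ⟨u, hu⟩ := h
  exact ⟨u ++ q, hu.append_right q⟩

theorem Red.of_eqv {w w' : List A} (h : P.Red w) (e : P.Eqv w w') : P.Red w' :=
  fun p a q h' => h p a q (e.trans' h')

theorem Red.left {u v : List A} (h : P.Red (u ++ v)) : P.Red u := by
  intro p a q h'
  apply h p a (q ++ v)
  have := h'.append_right v
  simpa using this

theorem Red.right {u v : List A} (h : P.Red (u ++ v)) : P.Red v := by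
  intro p a q h'
  apply h (u ++ p) a q
  have := h'.append_left u
  simpa using this

theorem Red.tail {x : A} {v : List A} (h : P.Red (x :: v)) : P.Red v :=
  Red.right (u := [x]) h

theorem red_nil : P.Red [] := by
  intro p a q h
  have := h.length_eq
  simp at this

theorem red_single (x : A) : P.Red [x] := by
  intro p a q h
  have := h.length_eq
  simp at this
  omega

theorem D_of_not_red_aux (p : List A) : ∀ (x : A) (w : List A) (a : A) (q : List A), P.Red w →
    P.Eqv (x :: w) (p ++ a :: P.inv a :: q) → P.D w (P.inv x) := by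
  induction p with
  | nil =>
    intro x w a q hw h
    rcases garside h with ⟨rfl, h⟩ | ⟨ax, xa, r, hs, h1, h2⟩
    · exact ⟨q, h⟩
    · exfalso
      have e1 := P.rot (P.symm hs)
      rcases garside h2 with ⟨h3, _⟩ | ⟨y', x', r', hs', h3, h4⟩
      · exact P.ne e1 h3
      · obtain ⟨_, rfl⟩ := P.uniq e1 hs'
        exact hw [] ax r' (h1.trans' (h4.cons _))
  | cons y p ih =>
    intro x w a q hw h
    rcases garside h with ⟨rfl, h0⟩ | ⟨yx, xy, r, hs, h1, h2⟩
    · exact absurd h0 (hw p a q)
    · have hr : P.Red r := (hw.of_eqv h1).tail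
      obtain ⟨r', hr'⟩ := ih xy r a q hr h2.symm'
      exact ⟨y :: r', h1.trans' ((hr'.cons _).trans' (sq_eqv (P.symm (P.rot hs)) r'))⟩

theorem Red.cons_of_not_D {x : A} {w : List A} (hw : P.Red w) (h : ¬ P.D w (P.inv x)) :
    P.Red (x :: w) := fun p a q h' => h (D_of_not_red_aux p x w a q hw h')

theorem Red.not_D {x : A} {w : List A} (hw : P.Red (x :: w)) : ¬ P.D w (P.inv x) := by
  rintro ⟨u, hu⟩
  exact hw [] x u (hu.cons x)

variable (P) in
/-- formal inverse of a word -/
def rinv (w : List A) : List A := (w.map P.inv).reverse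

theorem rinv_cons (c : A) (p : List A) : P.rinv (c :: p) = P.rinv p ++ [P.inv c] := by
  simp [rinv]

theorem rinv_rinv (w : List A) : P.rinv (P.rinv w) = w := by
  simp only [rinv, List.map_reverse, List.reverse_reverse, List.map_map]
  have : P.inv ∘ P.inv = id := funext P.inv_inv
  simp [this]

theorem rinv_length (w : List A) : (P.rinv w).length = w.length := by simp [rinv]

theorem L2 (q : List A) (p : List A) : ∀ a, P.D (p ++ q) a → P.Red (P.rinv p ++ [a]) →
    ∃ b, P.D q b ∧ P.D (P.rinv p ++ [a]) b := by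
  induction p with
  | nil =>
    intro a h _
    exact ⟨a, h, [], Eqv.rfl' _⟩
  | cons c p ih =>
    rintro a ⟨t, ht⟩ hr
    rw [rinv_cons] at hr ⊢
    rcases garside ht with ⟨rfl, _⟩ | ⟨a', c', r, hs, h1, _⟩
    · exfalso
      apply hr (P.rinv p) (P.inv c) []
      rw [P.inv_inv]
      simpa using Eqv.rfl' _
    · have e : P.Eqv (P.rinv p ++ [P.inv c] ++ [a]) (P.rinv p ++ [a'] ++ [P.inv c']) := by
        have := (sq_eqv (P.rot hs) []).append_left (P.rinv p)
        simpa using this
      obtain ⟨b, hb1, hb2⟩ := ih a' ⟨r, h1⟩ (hr.of_eqv e).left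
      exact ⟨b, hb1, (hb2.append _).of_eqv e⟩

theorem red_append (v : List A) (hv : P.Red v) (p : List A) : P.Red (P.rinv p) →
    (∀ b, P.D (P.rinv p) b → ¬ P.D v b) → P.Red (p ++ v) := by
  induction p with
  | nil => intro _ _; exact hv
  | cons c p ih =>
    intro hr hD
    rw [rinv_cons] at hr hD
    have h1 := ih hr.left (fun b hb => hD b (hb.append _))
    refine h1.cons_of_not_D (fun h => ?_)
    obtain ⟨b, hb1, hb2⟩ := L2 v p _ h hr
    exact hD b hb2 hb1

theorem L3 (p : List A) : ∀ y, P.D p y ∨ ∃ b, ∀ q, P.D (p ++ q) y → P.D q b := by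
  induction p with
  | nil => intro y; exact Or.inr ⟨y, fun q h => h⟩
  | cons c p ih =>
    intro y
    by_cases hc : c = y
    · subst hc
      exact Or.inl ⟨p, Eqv.rfl' _⟩
    by_cases hs : ∃ y' c', P.Sq c y y' c'
    · obtain ⟨y', c', hs⟩ := hs
      rcases ih y' with ⟨t, ht⟩ | ⟨b, hb⟩
      · exact Or.inl ⟨c' :: t, (ht.cons c).trans' (sq_eqv hs t)⟩
      · refine Or.inr ⟨b, fun q ⟨t, ht⟩ => hb q ?_⟩
        rcases garside ht with ⟨h, _⟩ | ⟨y'', c'', r, hs', h1, _⟩
        · exact absurd h hc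
        · obtain ⟨rfl, rfl⟩ := P.uniq hs hs'
          exact ⟨r, h1⟩
    · refine Or.inr ⟨y, fun q ⟨t, ht⟩ => ?_⟩
      rcases garside ht with ⟨h, _⟩ | ⟨y'', c'', r, hs', _, _⟩
      · exact absurd h hc
      · exact absurd ⟨_, _, hs'⟩ hs

theorem join_lemma (q1 q2 q1' q2' : List A) (p' : List A) : ∀ p : List A, p.length = p'.length →
    P.Eqv (p ++ q1) (p' ++ q1') → P.Eqv (p ++ q2) (p' ++ q2') →
    P.Eqv p p' ∨ ∃ b, P.D q1 b ∧ P.D q2 b := by
  induction p' with
  | nil =>
    intro p hp _ _
    have : p = [] := List.length_eq_zero_iff.1 hp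
    subst this
    exact Or.inl (Eqv.rfl' _)
  | cons y p' ih =>
    intro p hp h1 h2
    rcases L3 (P := P) p y with ⟨t, ht⟩ | ⟨b, hb⟩
    · have hl : t.length = p'.length := by
        have := ht.length_eq
        simp at this hp
        omega
      have e1 : P.Eqv (t ++ q1) (p' ++ q1') :=
        Eqv.cancel (x := y) ((ht.append_right q1).symm'.trans' h1)
      have e2 : P.Eqv (t ++ q2) (p' ++ q2') :=
        Eqv.cancel (x := y) ((ht.append_right q2).symm'.trans' h2)
      rcases ih t hl e1 e2 with h | h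
      · exact Or.inl (ht.trans' (h.cons y))
      · exact Or.inr h
    · exact Or.inr ⟨b, hb q1 ⟨_, h1⟩, hb q2 ⟨_, h2⟩⟩

/-! The action of letters on reduced words. -/

variable (P) in
open Classical in
noncomputable def act (x : A) (w : List A) : List A :=
  if h : P.D w (P.inv x) then Classical.choose h else x :: w

theorem act_pos {x : A} {w u : List A} (h : P.Eqv w (P.inv x :: u)) : P.Eqv (P.act x w) u := by
  have hD : P.D w (P.inv x) := ⟨u, h⟩
  unfold act
  rw [dif_pos hD]
  exact Eqv.cancel ((Classical.choose_spec hD).symm'.trans' h)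

theorem act_neg {x : A} {w : List A} (h : ¬ P.D w (P.inv x)) : P.act x w = x :: w := by
  unfold act
  rw [dif_neg h]

theorem act_red (x : A) {w : List A} (hw : P.Red w) : P.Red (P.act x w) := by
  by_cases h : P.D w (P.inv x)
  · obtain ⟨u, hu⟩ := h
    exact (hw.of_eqv hu).tail.of_eqv (act_pos hu).symm'
  · rw [act_neg h]
    exact hw.cons_of_not_D h

theorem act_eqv (x : A) {w w' : List A} (e : P.Eqv w w') : P.Eqv (P.act x w) (P.act x w') := by
  by_cases h : P.D w (P.inv x)
  · obtain ⟨u, hu⟩ := h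
    exact (act_pos hu).trans' (act_pos (e.symm'.trans' hu)).symm'
  · rw [act_neg h, act_neg (fun h' => h (h'.of_eqv e))]
    exact e.cons x

theorem act_act_inv (x : A) {w : List A} (hw : P.Red w) :
    P.Eqv (P.act x (P.act (P.inv x) w)) w := by
  by_cases h : P.D w (P.inv (P.inv x))
  · obtain ⟨u, hu⟩ := h
    have h1 := act_pos hu
    rw [P.inv_inv] at hu
    have h2 : ¬ P.D u (P.inv x) := (hw.of_eqv hu).not_D
    refine (act_eqv x h1).trans' ?_
    rw [act_neg h2]
    exact hu.symm'
  · rw [act_neg h]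
    exact act_pos (Eqv.rfl' _)

theorem act_sq_aux {x y y' x' : A} (hs : P.Sq x y y' x') {w : List A}
    (h1 : P.D w (P.inv y')) (h2 : ¬ P.D w (P.inv x')) :
    P.Eqv (P.act x (P.act y' w)) (P.act y (P.act x' w)) := by
  obtain ⟨u, hu⟩ := h1
  have far : P.Sq (P.inv y') (P.inv x') (P.inv x) (P.inv y) := P.rot (P.symm (P.rot hs))
  have h3 : ¬ P.D u (P.inv x) := by
    rintro ⟨r, hr⟩
    exact h2 ⟨P.inv y :: r, hu.trans' ((hr.cons _).trans' (sq_eqv far r))⟩
  have e1 : P.Eqv (P.act x (P.act y' w)) (x :: u) := by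
    refine (act_eqv x (act_pos hu)).trans' ?_
    rw [act_neg h3]
    exact Eqv.rfl' _
  rw [act_neg h2]
  have e2 : P.Eqv (x' :: w) (P.inv y :: x :: u) :=
    (hu.cons x').trans' (sq_eqv (P.symm (P.rot (P.symm hs))) u)
  exact e1.trans' (act_pos e2).symm'

theorem act_sq {x y y' x' : A} (hs : P.Sq x y y' x') (w : List A) :
    P.Eqv (P.act x (P.act y' w)) (P.act y (P.act x' w)) := by
  have far : P.Sq (P.inv y') (P.inv x') (P.inv x) (P.inv y) := P.rot (P.symm (P.rot hs))
  by_cases h1 : P.D w (P.inv y')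
  · by_cases h2 : P.D w (P.inv x')
    · obtain ⟨u, hu⟩ := h1
      obtain ⟨v, hv⟩ := h2
      rcases garside (hu.symm'.trans' hv) with ⟨h, _⟩ | ⟨a, b, r, hs', h3, h4⟩
      · exact absurd h (P.ne far)
      · obtain ⟨rfl, rfl⟩ := P.uniq far hs'
        exact ((act_eqv x (act_pos hu)).trans' (act_pos h3)).trans'
          ((act_eqv y (act_pos hv)).trans' (act_pos h4)).symm'
    · exact act_sq_aux hs h1 h2
  · by_cases h2 : P.D w (P.inv x')
    · exact (act_sq_aux (P.symm hs) h2 h1).symm'
    · rw [act_neg h1, act_neg h2]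
      have h3 : ¬ P.D (y' :: w) (P.inv x) := by
        rintro ⟨r, hr⟩
        have s1 := P.symm (P.rot hs)
        rcases garside hr with ⟨h, _⟩ | ⟨a, b, r', hs', h3, _⟩
        · exact P.ne s1 h
        · obtain ⟨rfl, rfl⟩ := P.uniq s1 hs'
          exact h2 ⟨r', h3⟩
      have h4 : ¬ P.D (x' :: w) (P.inv y) := by
        rintro ⟨r, hr⟩
        have s1 := P.symm (P.rot (P.symm hs))
        rcases garside hr with ⟨h, _⟩ | ⟨a, b, r', hs', h3, _⟩
        · exact P.ne s1 h
        · obtain ⟨rfl, rfl⟩ := P.uniq s1 hs'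
          exact h1 ⟨r', h3⟩
      rw [act_neg h3, act_neg h4]
      exact sq_eqv hs w

end CubePres

end Pool.Agent.Lib.MP_67573e_al
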